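import Mathlib

/-!
# Kuramoto networks: variational facts and coarse estimates
-/

open Finset

namespace Pool.Agent.Lib.MP_2fe47b_co

variable {V : Type*} [Fintype V]

/-- energy differences in a direction -/
noncomputable def phi (A : V → V → ℝ) (a b : V → V → ℝ) (t : ℝ) : ℝ :=
  (1 / 2) * ∑ i, ∑ j, A i j * (1 - Real.cos (a i j + t * b i j))

lemma first_order (A a b : V → V → ℝ) (h : IsLocalMin (phi A a b) 0) :
    ∑ i, ∑ j, A i j * (Real.sin (a i j) * b i j) = 0 := by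
  have hd : HasDerivAt (phi A a b) ((1 / 2) * ∑ i, ∑ j, A i j * (Real.sin (a i j) * b i j)) 0 := by
    unfold phi
    apply HasDerivAt.const_mul
    apply HasDerivAt.fun_sum
    intro i _
    apply HasDerivAt.fun_sum
    intro j _
    apply HasDerivAt.const_mul
    have h1 : HasDerivAt (fun t : ℝ => a i j + t * b i j) (b i j) 0 := by
      simpa using ((hasDerivAt_id (0 : ℝ)).mul_const (b i j)).const_add (a i j)
    have h2 := h1.cos.const_sub 1
    simpa using h2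
  have := h.hasDerivAt_eq_zero hd
  linarith

lemma second_order (A a b : V → V → ℝ) (h : IsLocalMin (phi A a b) 0) :
    0 ≤ ∑ i, ∑ j, A i j * (Real.cos (a i j) * (b i j) ^ 2) := by
  by_contra hneg
  push Not at hneg
  set Q := ∑ i, ∑ j, A i j * (Real.cos (a i j) * (b i j) ^ 2) with hQ
  -- symmetric second difference
  have hsym : ∀ t : ℝ, phi A a b t + phi A a b (-t) - 2 * phi A a b 0 =
      ∑ i, ∑ j, A i j * (Real.cos (a i j) * (1 - Real.cos (t * b i j))) := by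
    intro t
    unfold phi
    have : ∀ i j, A i j * (Real.cos (a i j) * (1 - Real.cos (t * b i j))) =
        (1 / 2) * (A i j * (1 - Real.cos (a i j + t * b i j))) +
        (1 / 2) * (A i j * (1 - Real.cos (a i j + -t * b i j))) -
        (A i j * (1 - Real.cos (a i j + 0 * b i j))) := by
      intro i j
      have e1 : a i j + -t * b i j = a i j - t * b i j := by ring
      rw [e1, Real.cos_add, Real.cos_sub]
      simp only [zero_mul, add_zero]
      ring
    simp_rw [this, Finset.sum_sub_distrib, Finset.sum_add_distrib, ← Finset.mul_sum]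
    ring
  -- lower bound fails
  set C := ∑ i, ∑ j, |A i j| * (|b i j| ^ 4) with hC
  set D := ∑ i, ∑ j, |b i j| with hD
  have hC0 : 0 ≤ C := Finset.sum_nonneg fun i _ => Finset.sum_nonneg fun j _ => by positivity
  have hD0 : 0 ≤ D := Finset.sum_nonneg fun i _ => Finset.sum_nonneg fun j _ => by positivity
  have hbD : ∀ i j, |b i j| ≤ D := by
    intro i j
    calc |b i j| ≤ ∑ j, |b i j| := Finset.single_le_sum (f := fun j => |b i j|)
          (fun j _ => abs_nonneg _) (Finset.mem_univ j)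
      _ ≤ D := Finset.single_le_sum (f := fun i => ∑ j, |b i j|)
          (fun i _ => Finset.sum_nonneg fun j _ => abs_nonneg _) (Finset.mem_univ i)
  have hest : ∀ t : ℝ, |t| * D ≤ 1 →
      ∑ i, ∑ j, A i j * (Real.cos (a i j) * (1 - Real.cos (t * b i j))) ≤
        t ^ 2 / 2 * Q + t ^ 4 * C := by
    intro t ht
    have : ∀ i j, A i j * (Real.cos (a i j) * (1 - Real.cos (t * b i j))) ≤
        t ^ 2 / 2 * (A i j * (Real.cos (a i j) * (b i j) ^ 2)) + t ^ 4 * (|A i j| * |b i j| ^ 4) := by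
      intro i j
      have h1 : |t * b i j| ≤ 1 := by
        rw [abs_mul]
        exact (mul_le_mul_of_nonneg_left (hbD i j) (abs_nonneg t)).trans ht
      have h2 := Real.cos_bound h1
      have h3 : A i j * (Real.cos (a i j) * (1 - Real.cos (t * b i j))) -
          t ^ 2 / 2 * (A i j * (Real.cos (a i j) * (b i j) ^ 2)) =
          - (A i j * Real.cos (a i j)) * (Real.cos (t * b i j) - (1 - (t * b i j) ^ 2 / 2)) := by
        ring
      have h4 : - (A i j * Real.cos (a i j)) * (Real.cos (t * b i j) - (1 - (t * b i j) ^ 2 / 2)) ≤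
          |A i j| * (|t * b i j| ^ 4 * (5 / 96)) := by
        calc _ ≤ |- (A i j * Real.cos (a i j)) *
              (Real.cos (t * b i j) - (1 - (t * b i j) ^ 2 / 2))| := le_abs_self _
          _ = |A i j| * |Real.cos (a i j)| *
              |Real.cos (t * b i j) - (1 - (t * b i j) ^ 2 / 2)| := by
            rw [abs_mul, abs_neg, abs_mul]
          _ ≤ |A i j| * 1 * (|t * b i j| ^ 4 * (5 / 96)) := by
            apply mul_le_mul _ h2 (abs_nonneg _) (by positivity)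
            exact mul_le_mul_of_nonneg_left (Real.abs_cos_le_one _) (abs_nonneg _)
          _ = _ := by ring
      have h5 : |t * b i j| ^ 4 = t ^ 4 * |b i j| ^ 4 := by
        rw [abs_mul, mul_pow]
        have : |t| ^ 4 = t ^ 4 := by
          have : |t| ^ 4 = (|t| ^ 2) ^ 2 := by ring
          rw [this, sq_abs]; ring
        rw [this]
      rw [h5] at h4
      have h6 : 0 ≤ |A i j| * (t ^ 4 * |b i j| ^ 4) := by positivity
      nlinarith
    calc _ ≤ ∑ i, ∑ j, (t ^ 2 / 2 * (A i j * (Real.cos (a i j) * (b i j) ^ 2)) +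
          t ^ 4 * (|A i j| * |b i j| ^ 4)) :=
        Finset.sum_le_sum fun i _ => Finset.sum_le_sum fun j _ => this i j
      _ = _ := by
        rw [hQ, hC]
        simp_rw [Finset.sum_add_distrib, ← Finset.mul_sum]
  -- neighbourhood
  have h1 : ∀ᶠ t in nhds (0 : ℝ), phi A a b 0 ≤ phi A a b t := h
  have h2 : ∀ᶠ t in nhds (0 : ℝ), phi A a b 0 ≤ phi A a b (-t) := by
    have : Filter.Tendsto (fun t : ℝ => -t) (nhds 0) (nhds 0) := by
      simpa using (continuous_neg (G := ℝ)).tendsto 0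
    exact this.eventually h1
  have h3 : ∀ᶠ t in nhds (0 : ℝ), |t| * D ≤ 1 := by
    have : Filter.Tendsto (fun t : ℝ => |t| * D) (nhds 0) (nhds (|0| * D)) :=
      (continuous_abs.mul continuous_const).tendsto 0
    rw [abs_zero, zero_mul] at this
    exact (this.eventually (gt_mem_nhds (zero_lt_one))).mono fun t ht => le_of_lt ht
  have h4 : ∀ᶠ t in nhds (0 : ℝ), t ^ 2 * C < - Q / 2 := by
    have : Filter.Tendsto (fun t : ℝ => t ^ 2 * C) (nhds 0) (nhds (0 ^ 2 * C)) :=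
      ((continuous_pow 2).mul continuous_const).tendsto 0
    rw [zero_pow two_ne_zero, zero_mul] at this
    exact this.eventually (gt_mem_nhds (by linarith))
  have hall := (h1.and h2).and (h3.and h4)
  have : ∃ t : ℝ, t ≠ 0 ∧ ((phi A a b 0 ≤ phi A a b t ∧ phi A a b 0 ≤ phi A a b (-t)) ∧
      (|t| * D ≤ 1 ∧ t ^ 2 * C < - Q / 2)) := by
    have hall' : ∀ᶠ t in nhdsWithin (0 : ℝ) {0}ᶜ, ((phi A a b 0 ≤ phi A a b t ∧
      phi A a b 0 ≤ phi A a b (-t)) ∧ (|t| * D ≤ 1 ∧ t ^ 2 * C < - Q / 2)) :=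
      nhdsWithin_le_nhds hall
    have h5 : ∀ᶠ t in nhdsWithin (0 : ℝ) {0}ᶜ, t ≠ 0 := self_mem_nhdsWithin
    exact (h5.and hall').exists
  obtain ⟨t, ht0, ⟨ht1, ht2⟩, ht3, ht4⟩ := this
  have e1 := hsym t
  have e2 := hest t ht3
  have e3 : 0 < t ^ 2 := by positivity
  nlinarith

/-- Choose the phase of a sum of unit vectors. -/
lemma exists_phase (f : V → ℝ) : ∃ φ R : ℝ, 0 ≤ R ∧ ∑ j, Real.cos (f j - φ) = R ∧
    ∑ j, Real.sin (f j - φ) = 0 := by
  set z : ℂ := ⟨∑ j, Real.cos (f j), ∑ j, Real.sin (f j)⟩ with hz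
  refine ⟨z.arg, ‖z‖, norm_nonneg _, ?_, ?_⟩
  · have h1 : ∑ j, Real.cos (f j) = ‖z‖ * Real.cos z.arg := by
      rw [Complex.norm_mul_cos_arg]
    have h2 : ∑ j, Real.sin (f j) = ‖z‖ * Real.sin z.arg := by
      rw [Complex.norm_mul_sin_arg]
    simp_rw [Real.cos_sub, Finset.sum_add_distrib, ← Finset.sum_mul]
    rw [h1, h2]
    have := Real.sin_sq_add_cos_sq z.arg
    linear_combination ‖z‖ * this
  · have h1 : ∑ j, Real.cos (f j) = ‖z‖ * Real.cos z.arg := by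
      rw [Complex.norm_mul_cos_arg]
    have h2 : ∑ j, Real.sin (f j) = ‖z‖ * Real.sin z.arg := by
      rw [Complex.norm_mul_sin_arg]
    simp_rw [Real.sin_sub, Finset.sum_sub_distrib, ← Finset.sum_mul]
    rw [h1, h2]
    ring

/-- `∑∑ cos (f j - f i) = (∑ cos)^2 + (∑ sin)^2`. -/
lemma sum_cos_diff (f : V → ℝ) (φ : ℝ) : ∑ i, ∑ j, Real.cos (f j - f i) =
    (∑ j, Real.cos (f j - φ)) ^ 2 + (∑ j, Real.sin (f j - φ)) ^ 2 := by
  have : ∀ i j, Real.cos (f j - f i) = Real.cos (f j - φ) * Real.cos (f i - φ) +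
      Real.sin (f j - φ) * Real.sin (f i - φ) := by
    intro i j
    have : f j - f i = (f j - φ) - (f i - φ) := by ring
    rw [this, Real.cos_sub]
  simp_rw [this, Finset.sum_add_distrib, ← Finset.sum_mul]
  rw [← Finset.mul_sum, ← Finset.mul_sum]
  ring

lemma sum_cos_diff_nonneg (f : V → ℝ) : 0 ≤ ∑ i, ∑ j, Real.cos (f j - f i) := by
  rw [sum_cos_diff f 0]; positivity

/-- Weighted Cauchy–Schwarz for zero-one weights. -/
lemma cs_weight {ι : Type*} (s : Finset ι) (B g : ι → ℝ) (hB : ∀ i, B i = 0 ∨ B i = 1) :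
    (∑ i ∈ s, B i * g i) ^ 2 ≤ (∑ i ∈ s, B i) * ∑ i ∈ s, B i * g i ^ 2 := by
  have h := Finset.sum_mul_sq_le_sq_mul_sq s B (fun i => B i * g i)
  have e1 : ∀ i, B i * (B i * g i) = B i * g i := by
    intro i; rcases hB i with h | h <;> simp [h]
  have e2 : ∀ i, (B i) ^ 2 = B i := by
    intro i; rcases hB i with h | h <;> simp [h]
  have e3 : ∀ i, (B i * g i) ^ 2 = B i * g i ^ 2 := by
    intro i; rcases hB i with h | h <;> simp [h]
  simpa only [e1, e2, e3] using h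

/-- If all phases lie in an open half circle, they coincide. -/
lemma half_plane (A : V → V → ℝ) (θ : V → ℝ) (hA : ∀ i j, A i j = 0 ∨ A i j = 1)
    (hF : ∀ i, ∑ j, A i j * Real.sin (θ j - θ i) = 0)
    (hcn : ∀ i k, ∃ j, A i j = 1 ∧ A k j = 1) (hsym : ∀ i j, A i j = A j i)
    (hpos : ∀ i, 0 < Real.cos (θ i)) : ∀ i j, Real.cos (θ j - θ i) = 1 := by
  classical
  intro i₁ j₁
  have : Nonempty V := ⟨i₁⟩
  obtain ⟨m, hm⟩ := Finite.exists_max (fun i => Real.tan (θ i))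
  have hsin : ∀ i j, Real.sin (θ j - θ i) =
      Real.cos (θ i) * Real.cos (θ j) * (Real.tan (θ j) - Real.tan (θ i)) := by
    intro i j
    rw [Real.sin_sub, Real.tan_eq_sin_div_cos, Real.tan_eq_sin_div_cos]
    have := (hpos i).ne'
    have := (hpos j).ne'
    field_simp
  -- neighbours of a maximiser are maximisers
  have hnb : ∀ i, (∀ k, Real.tan (θ k) ≤ Real.tan (θ i)) → ∀ j, A i j = 1 →
      Real.tan (θ j) = Real.tan (θ i) := by
    intro i hi j hij
    have h1 : ∀ k ∈ (Finset.univ : Finset V), 0 ≤ A i k * - Real.sin (θ k - θ i) := by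
      intro k _
      have h2 : 0 ≤ - Real.sin (θ k - θ i) := by
        rw [hsin]
        have := mul_pos (hpos i) (hpos k)
        nlinarith [hi k]
      rcases hA i k with h | h <;> rw [h]
      · simp
      · linarith
    have h3 : ∑ k, A i k * - Real.sin (θ k - θ i) = 0 := by
      have : ∀ k, A i k * - Real.sin (θ k - θ i) = - (A i k * Real.sin (θ k - θ i)) := by
        intro k; ring
      simp_rw [this, Finset.sum_neg_distrib, hF i, neg_zero]
    have h4 := (Finset.sum_eq_zero_iff_of_nonneg h1).mp h3 j (Finset.mem_univ j)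
    rw [hij, one_mul, hsin, neg_eq_zero] at h4
    have h5 := (mul_pos (hpos i) (hpos j)).ne'
    rcases mul_eq_zero.mp h4 with h6 | h6
    · exact absurd h6 h5
    · linarith
  have hall : ∀ k, Real.tan (θ k) = Real.tan (θ m) := by
    intro k
    obtain ⟨j, hj1, hj2⟩ := hcn m k
    have h1 := hnb m hm j hj1
    have h2 : ∀ l, Real.tan (θ l) ≤ Real.tan (θ j) := by
      intro l; rw [h1]; exact hm l
    have h3 := hnb j h2 k (by rw [hsym]; exact hj2)
    rw [h3, h1]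
  have h1 : Real.sin (θ j₁ - θ i₁) = 0 := by
    rw [hsin, hall i₁, hall j₁]; ring
  have h2 : 0 < Real.cos (θ j₁ - θ i₁) := by
    rw [Real.cos_sub]
    have e1 : Real.sin (θ j₁) = Real.tan (θ j₁) * Real.cos (θ j₁) :=
      (Real.tan_mul_cos (hpos j₁).ne').symm
    have e2 : Real.sin (θ i₁) = Real.tan (θ i₁) * Real.cos (θ i₁) :=
      (Real.tan_mul_cos (hpos i₁).ne').symm
    rw [e1, e2, hall i₁, hall j₁]
    have := mul_pos (hpos j₁) (hpos i₁)
    nlinarith [sq_nonneg (Real.tan (θ m))]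
  have h3 := Real.sin_sq_add_cos_sq (θ j₁ - θ i₁)
  rw [h1] at h3
  nlinarith

lemma alg_A (r g p d e m : ℝ) (hm : m = 1 / 4 + e) (he0 : 0 < e) (he : e ≤ 1 / 1000)
    (hr0 : 0 ≤ r) (hrm : r ≤ m) (hgp : g ^ 2 ≤ p) (hd0 : 0 ≤ d)
    (h : r ^ 2 * (1 - g) ≤ 2 * m * d)
    (hS : 0 ≤ r ^ 2 - 1 / 2 - p / 2 + 2 * m - 3 / 2 * d) :
    5 / 4 * r ^ 2 + p / 4 ≤ 2 * e := by
  have h1 : 14 / 5 * (r ^ 2 * (1 - g)) ≤ 3 / 2 * d := by nlinarith
  have h2 : r ^ 2 ≤ 63 / 1000 + 1 / 10000 := by nlinarith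
  have h3 : 14 / 5 * (r ^ 2 * g) ≤ 1 / 4 * g ^ 2 + 55 / 100 * r ^ 2 := by
    nlinarith [sq_nonneg (1 / 2 * g - 14 / 5 * r ^ 2), sq_nonneg r]
  nlinarith

/-- The coarse estimates for a nonconstant stable state. -/
lemma step_A (A : V → V → ℝ) (θ : V → ℝ) (hA : ∀ i j, A i j = 0 ∨ A i j = 1)
    (N : ℝ) (hN : N = Fintype.card V) (hN0 : 0 < N)
    (e : ℝ) (he0 : 0 < e) (he : e ≤ 1 / 1000)
    (hdeg : ∀ i, (3 / 4 - e) * N ≤ ∑ j, A i j)
    (hF : ∀ i, ∑ j, A i j * Real.sin (θ j - θ i) = 0)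
    (hz : ∀ i, 0 ≤ ∑ j, A i j * Real.cos (θ j - θ i))
    (hS : 0 ≤ ∑ i, ∑ j, A i j * (Real.cos (θ j - θ i) - Real.cos (θ j - θ i) ^ 2))
    (R : ℝ) (hR0 : 0 ≤ R) (hR : ∑ j, Real.cos (θ j) = R) (hR' : ∑ j, Real.sin (θ j) = 0)
    (i₀ : V) (hi₀ : Real.cos (θ i₀) ≤ 0) :
    R ^ 2 ≤ 2 * e * N ^ 2 ∧ (∑ i, ∑ j, Real.cos (2 * θ j - 2 * θ i)) ≤ 8 * e * N ^ 2 ∧
    (∑ i, ∑ j, (1 - A i j) * (1 + Real.cos (θ j - θ i))) ≤ 4 * e * N ^ 2 ∧
    N ^ 2 * (1 / 2 - 2 * e) ≤
      ∑ i, ∑ j, (1 - A i j) * (Real.cos (θ j - θ i) ^ 2 - Real.cos (θ j - θ i)) := by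
  classical
  set m := 1 / 4 + e with hm
  have hcard : ∑ _j : V, (1 : ℝ) = N := by simp [hN]
  -- complement weights
  set B : V → V → ℝ := fun i j => 1 - A i j with hBdef
  have hB : ∀ i j, B i j = 0 ∨ B i j = 1 := by
    intro i j
    rcases hA i j with h | h <;> simp [hBdef, h]
  have hB0 : ∀ i j, 0 ≤ B i j := by
    intro i j; rcases hB i j with h | h <;> rw [h] <;> norm_num
  have hBrow : ∀ i, ∑ j, B i j ≤ m * N := by
    intro i
    have : ∑ j, B i j = N - ∑ j, A i j := by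
      simp only [hBdef, Finset.sum_sub_distrib, hcard]
    rw [this]
    have := hdeg i
    rw [hm]; nlinarith
  -- the sums seen from `θ i`
  have hsumcos : ∀ i, ∑ j, Real.cos (θ j - θ i) = R * Real.cos (θ i) := by
    intro i
    simp_rw [Real.cos_sub, Finset.sum_add_distrib, ← Finset.sum_mul, hR, hR']
    ring
  have hsumsin : ∀ i, ∑ j, Real.sin (θ j - θ i) = - (R * Real.sin (θ i)) := by
    intro i
    simp_rw [Real.sin_sub, Finset.sum_sub_distrib, ← Finset.sum_mul, hR, hR']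
    ring
  have hBsin : ∀ i, ∑ j, B i j * Real.sin (θ j - θ i) = - (R * Real.sin (θ i)) := by
    intro i
    have : ∀ j, B i j * Real.sin (θ j - θ i) =
        Real.sin (θ j - θ i) - A i j * Real.sin (θ j - θ i) := by
      intro j; simp only [hBdef]; ring
    simp_rw [this, Finset.sum_sub_distrib, hF i, hsumsin i, sub_zero]
  -- R ≤ m N
  have hRm : R ≤ m * N := by
    have h1 : ∀ j, Real.cos (θ j) = A i₀ j * Real.cos (θ j) + B i₀ j * Real.cos (θ j) := by
      intro j; simp only [hBdef]; ring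
    have h2 : ∑ j, A i₀ j * Real.cos (θ j) =
        Real.cos (θ i₀) * ∑ j, A i₀ j * Real.cos (θ j - θ i₀) := by
      have : ∀ j, A i₀ j * Real.cos (θ j) = Real.cos (θ i₀) * (A i₀ j * Real.cos (θ j - θ i₀)) -
          Real.sin (θ i₀) * (A i₀ j * Real.sin (θ j - θ i₀)) := by
        intro j
        have : θ j = θ i₀ + (θ j - θ i₀) := by ring
        conv_lhs => rw [this, Real.cos_add]
        ring
      simp_rw [this, Finset.sum_sub_distrib, ← Finset.mul_sum, hF i₀]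
      ring
    have h3 : ∑ j, B i₀ j * Real.cos (θ j) ≤ m * N := by
      refine le_trans (Finset.sum_le_sum fun j _ => ?_) (hBrow i₀)
      have := Real.cos_le_one (θ j)
      nlinarith [hB0 i₀ j]
    have h4 : R = ∑ j, A i₀ j * Real.cos (θ j) + ∑ j, B i₀ j * Real.cos (θ j) := by
      rw [← hR, ← Finset.sum_add_distrib]
      exact Finset.sum_congr rfl fun j _ => h1 j
    rw [h4, h2]
    have := mul_nonpos_of_nonpos_of_nonneg hi₀ (hz i₀)
    linarith
  -- Cauchy–Schwarz row by row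
  set D := ∑ i, ∑ j, B i j * Real.sin (θ j - θ i) ^ 2 with hD
  have hDrow0 : ∀ i, 0 ≤ ∑ j, B i j * Real.sin (θ j - θ i) ^ 2 := fun i =>
    Finset.sum_nonneg fun j _ => mul_nonneg (hB0 i j) (sq_nonneg _)
  have hD0 : 0 ≤ D := Finset.sum_nonneg fun i _ => hDrow0 i
  have hrow : ∀ i, R ^ 2 * Real.sin (θ i) ^ 2 ≤ m * N * ∑ j, B i j * Real.sin (θ j - θ i) ^ 2 := by
    intro i
    have h1 := cs_weight Finset.univ (fun j => B i j) (fun j => Real.sin (θ j - θ i)) (hB i)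
    rw [hBsin i] at h1
    calc R ^ 2 * Real.sin (θ i) ^ 2 = (-(R * Real.sin (θ i))) ^ 2 := by ring
      _ ≤ _ := h1
      _ ≤ _ := mul_le_mul_of_nonneg_right (hBrow i) (hDrow0 i)
  set Γ := ∑ i, Real.cos (2 * θ i) with hΓ
  have hsin2 : ∑ i, Real.sin (θ i) ^ 2 = (N - Γ) / 2 := by
    have : ∀ i, Real.sin (θ i) ^ 2 = (1 - Real.cos (2 * θ i)) / 2 := by
      intro i
      rw [Real.cos_two_mul, Real.cos_sq']; ring
    simp_rw [this, ← Finset.sum_div, Finset.sum_sub_distrib, hcard]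
    rw [hΓ]
  have hRD : R ^ 2 * ((N - Γ) / 2) ≤ m * N * D := by
    rw [← hsin2, hD, Finset.mul_sum, Finset.mul_sum]
    exact Finset.sum_le_sum fun i _ => hrow i
  set P2 := ∑ i, ∑ j, Real.cos (2 * θ j - 2 * θ i) with hP2
  have hP2Γ : Γ ^ 2 ≤ P2 := by
    have h1 := sum_cos_diff (fun i => 2 * θ i) 0
    simp only [sub_zero] at h1
    rw [hP2, h1, ← hΓ]
    nlinarith [sq_nonneg (∑ j, Real.sin (2 * θ j))]
  have hR2 : ∑ i, ∑ j, Real.cos (θ j - θ i) = R ^ 2 := by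
    have h1 := sum_cos_diff θ 0
    simp only [sub_zero] at h1
    rw [h1, hR, hR']; ring
  have hN2 : ∑ _i : V, ∑ _j : V, (1 : ℝ) = N ^ 2 := by
    simp only [hcard, Finset.sum_const, Finset.card_univ, nsmul_eq_mul]
    rw [← hN]; ring
  have hcos2 : ∑ i, ∑ j, Real.cos (θ j - θ i) ^ 2 = N ^ 2 / 2 + P2 / 2 := by
    have : ∀ i j, Real.cos (θ j - θ i) ^ 2 = 1 / 2 + Real.cos (2 * θ j - 2 * θ i) / 2 := by
      intro i j
      have : 2 * θ j - 2 * θ i = 2 * (θ j - θ i) := by ring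
      rw [this, Real.cos_sq]
    simp_rw [this, Finset.sum_add_distrib, ← Finset.sum_div]
    rw [← hP2]
    have : ∑ _i : V, ∑ _j : V, (1 : ℝ) / 2 = N ^ 2 / 2 := by
      rw [← hN2]
      simp_rw [← Finset.sum_div]
    simp_rw [← Finset.sum_div] at this
    rw [this]
  set F := ∑ i, ∑ j, B i j * (Real.cos (θ j - θ i) ^ 2 - Real.cos (θ j - θ i)) with hFdef
  have hSF : ∑ i, ∑ j, A i j * (Real.cos (θ j - θ i) - Real.cos (θ j - θ i) ^ 2) =
      R ^ 2 - (N ^ 2 / 2 + P2 / 2) + F := by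
    have : ∀ i j, A i j * (Real.cos (θ j - θ i) - Real.cos (θ j - θ i) ^ 2) =
        Real.cos (θ j - θ i) - Real.cos (θ j - θ i) ^ 2 +
        B i j * (Real.cos (θ j - θ i) ^ 2 - Real.cos (θ j - θ i)) := by
      intro i j; simp only [hBdef]; ring
    simp_rw [this, Finset.sum_add_distrib, Finset.sum_sub_distrib]
    rw [hR2, hcos2]
  set b := ∑ i, ∑ j, B i j with hb
  have hbm : b ≤ m * N ^ 2 := by
    calc b ≤ ∑ _i : V, m * N := Finset.sum_le_sum fun i _ => hBrow i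
      _ = m * N ^ 2 := by
        rw [Finset.sum_const, Finset.card_univ, nsmul_eq_mul, ← hN]; ring
  have hFle : F ≤ 2 * b - 3 / 2 * D := by
    rw [hFdef, hb, hD]
    simp_rw [Finset.mul_sum, ← Finset.sum_sub_distrib]
    refine Finset.sum_le_sum fun i _ => Finset.sum_le_sum fun j _ => ?_
    have h1 := Real.sin_sq_add_cos_sq (θ j - θ i)
    have h2 : Real.cos (θ j - θ i) ^ 2 - Real.cos (θ j - θ i) ≤
        2 - 3 / 2 * Real.sin (θ j - θ i) ^ 2 := by
      nlinarith [sq_nonneg (1 + Real.cos (θ j - θ i))]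
    have := mul_le_mul_of_nonneg_left h2 (hB0 i j)
    linarith
  -- normalise
  have hmain : 5 / 4 * (R / N) ^ 2 + (P2 / N ^ 2) / 4 ≤ 2 * e := by
    apply alg_A (R / N) (Γ / N) (P2 / N ^ 2) (D / N ^ 2) e m hm he0 he
    · positivity
    · rw [div_le_iff₀ hN0]; exact hRm
    · rw [div_pow]
      exact div_le_div_of_nonneg_right hP2Γ (by positivity)
    · positivity
    · have : (R / N) ^ 2 * (1 - Γ / N) = (R ^ 2 * ((N - Γ) / 2)) * (2 / N ^ 3) := by
        field_simp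
      rw [this]
      have h2 : 2 * m * (D / N ^ 2) = (m * N * D) * (2 / N ^ 3) := by
        field_simp
      rw [h2]
      exact mul_le_mul_of_nonneg_right hRD (by positivity)
    · rw [hSF] at hS
      have h1 : 0 ≤ (R ^ 2 - (N ^ 2 / 2 + P2 / 2) + (2 * (m * N ^ 2) - 3 / 2 * D)) / N ^ 2 := by
        apply div_nonneg _ (by positivity)
        nlinarith
      have h2 : (R ^ 2 - (N ^ 2 / 2 + P2 / 2) + (2 * (m * N ^ 2) - 3 / 2 * D)) / N ^ 2 =
          (R / N) ^ 2 - 1 / 2 - P2 / N ^ 2 / 2 + 2 * m - 3 / 2 * (D / N ^ 2) := by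
        field_simp
        ring
      rw [h2] at h1
      exact h1
  have hN2pos : 0 < N ^ 2 := by positivity
  have hP20 : 0 ≤ P2 := by rw [hP2]; exact sum_cos_diff_nonneg (fun i => 2 * θ i)
  have hmain2 : 5 / 4 * R ^ 2 + P2 / 4 ≤ 2 * e * N ^ 2 := by
    have h1 : (5 / 4 * (R / N) ^ 2 + (P2 / N ^ 2) / 4) * N ^ 2 = 5 / 4 * R ^ 2 + P2 / 4 := by
      field_simp
    rw [← h1]
    exact mul_le_mul_of_nonneg_right hmain hN2pos.le
  have hR2le : R ^ 2 ≤ 2 * e * N ^ 2 := by linarith [sq_nonneg R]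
  have hFge : N ^ 2 * (1 / 2 - 2 * e) ≤ F := by
    rw [hSF] at hS
    linarith
  have hP2le : P2 ≤ 8 * e * N ^ 2 := by linarith [sq_nonneg R]
  refine ⟨hR2le, hP2le, ?_, hFge⟩
  have h1 : ∑ i, ∑ j, B i j * (1 + Real.cos (θ j - θ i)) ≤ 2 * b - F := by
    rw [hFdef, hb]
    simp_rw [Finset.mul_sum, ← Finset.sum_sub_distrib]
    refine Finset.sum_le_sum fun i _ => Finset.sum_le_sum fun j _ => ?_
    have h1 := Real.neg_one_le_cos (θ j - θ i)
    have h2 := Real.cos_le_one (θ j - θ i)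
    have h3 : 1 + Real.cos (θ j - θ i) ≤
        2 - (Real.cos (θ j - θ i) ^ 2 - Real.cos (θ j - θ i)) := by nlinarith
    have := mul_le_mul_of_nonneg_left h3 (hB0 i j)
    linarith
  calc _ ≤ 2 * b - F := h1
    _ ≤ 4 * e * N ^ 2 := by rw [hm] at hbm; linarith

/-- Cauchy–Schwarz for double sums. -/
lemma cs_weight2 (B g : V → V → ℝ) (hB : ∀ i j, B i j = 0 ∨ B i j = 1) :
    (∑ i, ∑ j, B i j * g i j) ^ 2 ≤ (∑ i, ∑ j, B i j) * ∑ i, ∑ j, B i j * g i j ^ 2 := by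
  have h := cs_weight (Finset.univ : Finset (V × V)) (fun p => B p.1 p.2) (fun p => g p.1 p.2)
    (fun p => hB p.1 p.2)
  simpa only [Fintype.sum_prod_type] using h

lemma step_B (A : V → V → ℝ) (θ : V → ℝ) (hA : ∀ i j, A i j = 0 ∨ A i j = 1)
    (N : ℝ) (hN : N = Fintype.card V) (hN0 : 0 < N)
    (e : ℝ) (he0 : 0 < e) (he : e ≤ 1 / 1000)
    (hdeg : ∀ i, (3 / 4 - e) * N ≤ ∑ j, A i j)
    (hP2 : (∑ i, ∑ j, Real.cos (2 * θ j - 2 * θ i)) ≤ 8 * e * N ^ 2)
    (hF : N ^ 2 * (1 / 2 - 2 * e) ≤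
      ∑ i, ∑ j, (1 - A i j) * (Real.cos (θ j - θ i) ^ 2 - Real.cos (θ j - θ i))) :
    N ^ 2 * (1 - 160 * e) ≤ ∑ i, ∑ j, Real.cos (4 * θ j - 4 * θ i) := by
  set m := 1 / 4 + e with hm
  have hcard : ∑ _j : V, (1 : ℝ) = N := by simp [hN]
  -- complement weights
  set B : V → V → ℝ := fun i j => 1 - A i j with hBdef
  have hB : ∀ i j, B i j = 0 ∨ B i j = 1 := by
    intro i j
    rcases hA i j with h | h
    · right; simp [hBdef, h]
    · left; simp [hBdef, h]
  have hB0 : ∀ i j, 0 ≤ B i j := by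
    intro i j; rcases hB i j with h | h <;> rw [h]; norm_num
  have hB1 : ∀ i j, B i j ≤ 1 := by
    intro i j; rcases hB i j with h | h <;> rw [h]; norm_num
  have hBrow : ∀ i, ∑ j, B i j ≤ m * N := by
    intro i
    have : ∑ j, B i j = N - ∑ j, A i j := by
      simp only [hBdef, Finset.sum_sub_distrib, hcard]
    rw [this]
    have := hdeg i
    rw [hm]; linarith
  have hbm : ∑ i, ∑ j, B i j ≤ m * N ^ 2 := by
    calc ∑ i, ∑ j, B i j ≤ ∑ _i : V, m * N := Finset.sum_le_sum fun i _ => hBrow i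
      _ = m * N ^ 2 := by
        rw [Finset.sum_const, Finset.card_univ, nsmul_eq_mul, ← hN]; ring
  have hN2 : ∑ _i : V, ∑ _j : V, (7 / 8 : ℝ) = 7 / 8 * N ^ 2 := by
    simp only [Finset.sum_const, Finset.card_univ, nsmul_eq_mul]
    rw [← hN]; ring
  set f : V → V → ℝ := fun i j => Real.cos (θ j - θ i) ^ 2 - Real.cos (θ j - θ i) with hf
  set P4 := ∑ i, ∑ j, Real.cos (4 * θ j - 4 * θ i) with hP4
  set P2 := ∑ i, ∑ j, Real.cos (2 * θ j - 2 * θ i) with hP2def
  have hcs := cs_weight2 B f hB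
  have hBf2 : ∑ i, ∑ j, B i j * f i j ^ 2 ≤ ∑ i, ∑ j, f i j ^ 2 := by
    refine Finset.sum_le_sum fun i _ => Finset.sum_le_sum fun j _ => ?_
    nlinarith [sq_nonneg (f i j), hB1 i j]
  have hf2 : ∑ i, ∑ j, f i j ^ 2 ≤ 7 / 8 * N ^ 2 + P2 + P4 / 8 := by
    have : ∀ i j, f i j ^ 2 = 7 / 8 - 3 / 2 * Real.cos (θ j - θ i) +
        Real.cos (2 * θ j - 2 * θ i) - 1 / 2 * Real.cos (3 * θ j - 3 * θ i) +
        Real.cos (4 * θ j - 4 * θ i) / 8 := by
      intro i j
      have e2 : 2 * θ j - 2 * θ i = 2 * (θ j - θ i) := by ring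
      have e3 : 3 * θ j - 3 * θ i = 3 * (θ j - θ i) := by ring
      have e4 : 4 * θ j - 4 * θ i = 2 * (2 * (θ j - θ i)) := by ring
      rw [e2, e3, e4, Real.cos_three_mul, Real.cos_two_mul (2 * (θ j - θ i)), Real.cos_two_mul]
      simp only [hf]
      ring
    have e1 : ∑ i, ∑ j, f i j ^ 2 = 7 / 8 * N ^ 2 - 3 / 2 * ∑ i, ∑ j, Real.cos (θ j - θ i) +
        P2 - 1 / 2 * ∑ i, ∑ j, Real.cos (3 * θ j - 3 * θ i) + P4 / 8 := by
      simp_rw [this, Finset.sum_add_distrib, Finset.sum_sub_distrib, Finset.sum_add_distrib,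
        Finset.sum_sub_distrib, ← Finset.mul_sum, ← Finset.sum_div]
      rw [← hN2, hP2def, hP4]
      simp_rw [← Finset.sum_div]
    have h1 := sum_cos_diff_nonneg θ
    have h3 := sum_cos_diff_nonneg (fun i => 3 * θ i)
    rw [e1]
    linarith
  have hF' : N ^ 2 * (1 / 2 - 2 * e) ≤ ∑ i, ∑ j, B i j * f i j := hF
  have hx : 0 ≤ N ^ 2 * (1 / 2 - 2 * e) := by
    apply mul_nonneg (by positivity); linarith
  have h1 : (N ^ 2 * (1 / 2 - 2 * e)) ^ 2 ≤ (m * N ^ 2) * (7 / 8 * N ^ 2 + P2 + P4 / 8) := by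
    calc (N ^ 2 * (1 / 2 - 2 * e)) ^ 2 ≤ (∑ i, ∑ j, B i j * f i j) ^ 2 :=
          pow_le_pow_left₀ hx hF' 2
      _ ≤ (∑ i, ∑ j, B i j) * ∑ i, ∑ j, B i j * f i j ^ 2 := hcs
      _ ≤ (m * N ^ 2) * ∑ i, ∑ j, f i j ^ 2 := by
        apply mul_le_mul hbm hBf2
        · exact Finset.sum_nonneg fun i _ => Finset.sum_nonneg fun j _ =>
            mul_nonneg (hB0 i j) (sq_nonneg _)
        · have : 0 ≤ m := by rw [hm]; linarith
          positivity
      _ ≤ _ := by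
        apply mul_le_mul_of_nonneg_left hf2
        have : 0 ≤ m := by rw [hm]; linarith
        positivity
  have hN2pos : 0 < N ^ 2 := by positivity
  have h2 : (N ^ 2 * (1 / 2 - 2 * e)) ^ 2 ≤ (m * N ^ 2) * (7 / 8 * N ^ 2 + 8 * e * N ^ 2 + P4 / 8) := by
    refine h1.trans ?_
    apply mul_le_mul_of_nonneg_left (by linarith)
    have : 0 ≤ m := by rw [hm]; linarith
    positivity
  -- normalise
  set p := P4 / N ^ 2 with hp
  have hP4p : P4 = p * N ^ 2 := by rw [hp]; field_simp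
  rw [hP4p]
  rw [hP4p] at h2
  have h3 : (1 / 2 - 2 * e) ^ 2 ≤ m * (7 / 8 + 8 * e + p / 8) := by
    have : (N ^ 2) ^ 2 * (1 / 2 - 2 * e) ^ 2 ≤ (N ^ 2) ^ 2 * (m * (7 / 8 + 8 * e + p / 8)) := by
      calc _ = (N ^ 2 * (1 / 2 - 2 * e)) ^ 2 := by ring
        _ ≤ _ := h2
        _ = _ := by ring
    exact le_of_mul_le_mul_left this (by positivity)
  have h4 : 1 - 160 * e ≤ p := by
    by_contra hlt
    push Not at hlt
    rw [hm] at h3
    nlinarith
  nlinarith

end Pool.Agent.Lib.MP_2fe47b_co
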