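import Pool.Agent.Lib.MP_2fe47b_co.Fine

/-!
# Kuramoto networks: local minimisers are synchronized
-/

open Finset

namespace Pool.Agent.Lib.MP_2fe47b_co

variable {V : Type*} [Fintype V]

/-- The dichotomy for stable states. -/
lemma core (A : V → V → ℝ) (θ : V → ℝ) (hA : ∀ i j, A i j = 0 ∨ A i j = 1)
    (hsym : ∀ i j, A i j = A j i)
    (N : ℝ) (hN : N = Fintype.card V) (hN0 : 0 < N)
    (hdeg : ∀ i, (3 / 4 - 1 / 10000000) * N ≤ ∑ j, A i j)
    (hcn : ∀ i k, ∃ j, A i j = 1 ∧ A k j = 1)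
    (hF : ∀ i, ∑ j, A i j * Real.sin (θ j - θ i) = 0)
    (hz : ∀ i, 0 ≤ ∑ j, A i j * Real.cos (θ j - θ i))
    (hS : 0 ≤ ∑ i, ∑ j, A i j * (Real.cos (θ j - θ i) - Real.cos (θ j - θ i) ^ 2)) :
    (∀ i j, Real.cos (θ j - θ i) = 1) ∨
    (∃ (ψ : ℝ) (k : V → ℤ), ∀ i, θ i = ψ + k i * (Real.pi / 2)) := by
  obtain ⟨φ, R, hR0, hR, hR'⟩ := exists_phase θ
  have hdiff : ∀ i j, (θ j - φ) - (θ i - φ) = θ j - θ i := by intro i j; ring
  by_cases hpos : ∀ i, 0 < Real.cos (θ i - φ)
  · left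
    have := half_plane A (fun i => θ i - φ) hA (by simpa only [hdiff] using hF) hcn hsym hpos
    simpa only [hdiff] using this
  right
  push Not at hpos
  obtain ⟨i₀, hi₀⟩ := hpos
  have hdiff2 : ∀ i j, 2 * (θ j - φ) - 2 * (θ i - φ) = 2 * θ j - 2 * θ i := by intro i j; ring
  obtain ⟨hR2, hP2, hL, hFF⟩ := step_A A (fun i => θ i - φ) hA N hN hN0 (1 / 10000000)
    (by norm_num) (by norm_num) hdeg (by simpa only [hdiff] using hF)
    (by simpa only [hdiff] using hz) (by simpa only [hdiff] using hS) R hR0 hR hR' i₀ hi₀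
  simp only [hdiff, hdiff2] at hP2 hL hFF
  have hP4 := step_B A θ hA N hN hN0 (1 / 10000000) (by norm_num) (by norm_num) hdeg hP2 hFF
  obtain ⟨φ4, R4, hR40, hR4, hR4'⟩ := exists_phase (fun j => 4 * θ j)
  have hR4sq : ∑ i, ∑ j, Real.cos (4 * θ j - 4 * θ i) = R4 ^ 2 := by
    have := sum_cos_diff (fun j => 4 * θ j) φ4
    simp only [hR4, hR4'] at this
    rw [this]; ring
  have hR4ge : N * (1 - 160 * (1 / 10000000)) ≤ R4 := by
    rw [hR4sq] at hP4
    apply le_of_sq_le_sq _ hR40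
    refine le_trans ?_ hP4
    have : (0 : ℝ) ≤ N ^ 2 := by positivity
    nlinarith
  set ψ := φ4 / 4 with hψ
  set k : V → ℤ := fun j => round ((θ j - ψ) / (Real.pi / 2)) with hk
  set u : V → ℝ := fun j => θ j - ψ - k j * (Real.pi / 2) with hu
  have hpi : 0 < Real.pi / 2 := by positivity
  have hu4 : ∀ j, |u j| ≤ Real.pi / 4 := by
    intro j
    have h1 := abs_sub_round ((θ j - ψ) / (Real.pi / 2))
    have h2 : u j = ((θ j - ψ) / (Real.pi / 2) - k j) * (Real.pi / 2) := by
      simp only [hu]; field_simp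
    rw [h2, abs_mul, abs_of_pos hpi]
    calc _ ≤ (1 / 2) * (Real.pi / 2) := mul_le_mul_of_nonneg_right h1 hpi.le
      _ = _ := by ring
  have hθ : ∀ j, θ j = ψ + k j * (Real.pi / 2) + u j := by intro j; simp only [hu]; ring
  set x : V → ℝ := fun j => Real.sin (u j) with hx
  set y : V → ℝ := fun j => Real.cos (u j) with hy
  set c : V → ℝ := fun j => Real.cos (k j * (Real.pi / 2)) with hc
  set s : V → ℝ := fun j => Real.sin (k j * (Real.pi / 2)) with hs
  have hcs : ∀ j, Ax (c j) (s j) := fun j => ax_int (k j)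
  have hxy : ∀ j, x j ^ 2 + y j ^ 2 = 1 := fun j => Real.sin_sq_add_cos_sq _
  have hy0 : ∀ j, 0 < y j := by
    intro j
    have := abs_le.mp (hu4 j)
    exact Real.cos_pos_of_mem_Ioo ⟨by linarith [Real.pi_pos], by linarith [Real.pi_pos]⟩
  have hx2' : ∀ j, x j ^ 2 ≤ 1 / 2 := by
    intro j
    have := abs_le.mp (hu4 j)
    have h1 : 0 ≤ Real.cos (2 * u j) :=
      Real.cos_nonneg_of_mem_Icc ⟨by linarith, by linarith⟩
    rw [Real.cos_two_mul, Real.cos_sq'] at h1
    simp only [hx]; linarith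
  have hcosθ : ∀ j, Real.cos (θ j - ψ) = c j * y j - s j * x j := by
    intro j
    have : θ j - ψ = k j * (Real.pi / 2) + u j := by rw [hθ j]; ring
    rw [this, Real.cos_add]
  have hsinθ : ∀ j, Real.sin (θ j - ψ) = s j * y j + c j * x j := by
    intro j
    have : θ j - ψ = k j * (Real.pi / 2) + u j := by rw [hθ j]; ring
    rw [this, Real.sin_add]
  have h4u : ∀ j, 4 * θ j - φ4 = 4 * u j + k j * (2 * Real.pi) := by
    intro j
    have := hθ j
    rw [this, hψ]; ring
  have hsin4 : ∀ j, Real.sin (4 * θ j - φ4) = 4 * (x j * y j * (1 - 2 * x j ^ 2)) := by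
    intro j
    rw [h4u, Real.sin_add_int_mul_two_pi]
    have : 4 * u j = 2 * (2 * u j) := by ring
    rw [this, Real.sin_two_mul, Real.sin_two_mul, Real.cos_two_mul, Real.cos_sq']
    ring
  have hcos4 : ∀ j, Real.cos (4 * θ j - φ4) = 1 - 8 * x j ^ 2 * (1 - x j ^ 2) := by
    intro j
    rw [h4u, Real.cos_add_int_mul_two_pi]
    have : 4 * u j = 2 * (2 * u j) := by ring
    rw [this, Real.cos_two_mul, Real.cos_two_mul, Real.cos_sq']
    ring
  have hW : ∑ j, x j * y j * (1 - 2 * x j ^ 2) = 0 := by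
    have h1 : ∑ j, 4 * (x j * y j * (1 - 2 * x j ^ 2)) = 0 := by
      rw [← hR4']
      exact Finset.sum_congr rfl fun j _ => (hsin4 j).symm
    rw [← Finset.mul_sum] at h1
    linarith
  have hcard : ∑ _j : V, (1 : ℝ) = N := by simp [hN]
  have hx2 : ∑ j, x j ^ 2 ≤ 4 / 1000000 * N := by
    have h1 : ∑ j, (1 - 8 * x j ^ 2 * (1 - x j ^ 2)) = R4 := by
      rw [← hR4]
      exact Finset.sum_congr rfl fun j _ => (hcos4 j).symm
    have h2 : ∑ j, 4 * x j ^ 2 ≤ ∑ j, (1 - (1 - 8 * x j ^ 2 * (1 - x j ^ 2))) := by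
      refine Finset.sum_le_sum fun j _ => ?_
      have := hx2' j
      nlinarith [sq_nonneg (x j)]
    rw [Finset.sum_sub_distrib, hcard, h1, ← Finset.mul_sum] at h2
    linarith
  have hx1 : ∑ j, |x j| ≤ 2 / 1000 * N := by
    apply le_of_sq_le_sq _ (by positivity)
    have h1 := sq_sum_le_card_mul_sum_sq (s := (Finset.univ : Finset V)) (f := fun j => |x j|)
    simp only [sq_abs, Finset.card_univ] at h1
    rw [← hN] at h1
    refine h1.trans ?_
    nlinarith
  have hdR : ∑ i, ∑ j, Real.cos (θ j - θ i) = R ^ 2 := by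
    have := sum_cos_diff θ φ
    rw [hR, hR'] at this
    rw [this]; ring
  have hPQ : (∑ j, (c j * y j - s j * x j)) ^ 2 + (∑ j, (s j * y j + c j * x j)) ^ 2 = R ^ 2 := by
    rw [← hdR, sum_cos_diff θ ψ]
    simp only [hcosθ, hsinθ]
  have hP : |∑ j, (c j * y j - s j * x j)| ≤ 45 / 100000 * N := by
    apply abs_le_of_sq_le_sq _ (by positivity)
    nlinarith [sq_nonneg (∑ j, (s j * y j + c j * x j))]
  have hQ : |∑ j, (s j * y j + c j * x j)| ≤ 45 / 100000 * N := by
    apply abs_le_of_sq_le_sq _ (by positivity)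
    nlinarith [sq_nonneg (∑ j, (c j * y j - s j * x j))]
  have hax : ∀ j, c j * s j = 0 := by
    intro j
    rcases hcs j with ⟨h1, h2⟩ | ⟨h1, h2⟩ | ⟨h1, h2⟩ | ⟨h1, h2⟩ <;> rw [h1, h2] <;> norm_num
  have hcos2 : ∀ j, Real.cos (2 * θ j - 2 * ψ) = (c j ^ 2 - s j ^ 2) * (1 - 2 * x j ^ 2) := by
    intro j
    have : 2 * θ j - 2 * ψ = 2 * (θ j - ψ) := by ring
    rw [this, Real.cos_two_mul, hcosθ]
    have h1 := hax j
    have h2 := hxy j
    have h3 : c j ^ 2 + s j ^ 2 = 1 := by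
      rcases hcs j with ⟨h1, h2⟩ | ⟨h1, h2⟩ | ⟨h1, h2⟩ | ⟨h1, h2⟩ <;> rw [h1, h2] <;> norm_num
    have h4 : (c j * y j - s j * x j) ^ 2 = c j ^ 2 * y j ^ 2 + s j ^ 2 * x j ^ 2 -
        2 * (c j * s j) * (x j * y j) := by ring
    rw [h4, h1]
    have h5 : y j ^ 2 = 1 - x j ^ 2 := by linarith
    have h6 : s j ^ 2 = 1 - c j ^ 2 := by linarith
    rw [h5, h6]; ring
  have hG : |∑ j, (c j ^ 2 - s j ^ 2) * (1 - 2 * x j ^ 2)| ≤ 9 / 10000 * N := by
    apply abs_le_of_sq_le_sq _ (by positivity)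
    have h1 := sum_cos_diff (fun j => 2 * θ j) (2 * ψ)
    simp only [hcos2] at h1
    nlinarith [sq_nonneg (∑ j, Real.sin (2 * θ j - 2 * ψ))]
  have hrow := row_bound c s x y hcs hxy hy0 N hN hN0 hx1 hx2 hP hQ hG
  have hCform : ∀ i j, Real.cos (θ j - θ i) =
      (c i * c j + s i * s j) * (y i * y j + x i * x j) -
      (s j * c i - c j * s i) * (x j * y i - y j * x i) := by
    intro i j
    have : θ j - θ i = (θ j - ψ) - (θ i - ψ) := by ring
    rw [this, Real.cos_sub, hcosθ, hcosθ, hsinθ, hsinθ]; ring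
  have hSform : ∀ i j, Real.sin (θ j - θ i) =
      (s j * c i - c j * s i) * (y i * y j + x i * x j) +
      (c i * c j + s i * s j) * (x j * y i - y j * x i) := by
    intro i j
    have : θ j - θ i = (θ j - ψ) - (θ i - ψ) := by ring
    rw [this, Real.sin_sub, hcosθ, hcosθ, hsinθ, hsinθ]; ring
  have hx0 := step_C A c s x y hA hsym hcs hxy hy0 hx2' N hN hN0 hdeg
    (fun i j => Real.cos (θ j - θ i)) (fun i j => Real.sin (θ j - θ i)) hCform hSform hF hS
    (by refine hL.trans (le_of_eq ?_); ring) hW hx1 hx2 hrow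
  refine ⟨ψ, k, fun i => ?_⟩
  have h1 := hx0 i
  have h2 := abs_le.mp (hu4 i)
  have h3 : u i = 0 := by
    have hpi := Real.pi_pos
    by_contra hne
    rcases lt_or_gt_of_ne hne with hlt | hgt
    · have := Real.sin_neg_of_neg_of_neg_pi_lt hlt (by linarith)
      simp only [hx] at h1
      linarith
    · have := Real.sin_pos_of_pos_of_lt_pi hgt (by linarith)
      simp only [hx] at h1
      linarith
  have := hθ i
  rw [h3, add_zero] at this
  exact this

/-- no edge between adjacent clusters -/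
lemma no_adj (A : V → V → ℝ) (θ : V → ℝ) (hA : ∀ i j, A i j = 0 ∨ A i j = 1)
    (hsym : ∀ i j, A i j = A j i)
    (hmin : ∀ w : V → ℝ, IsLocalMin (phi A (fun i j => θ i - θ j) (fun i j => w i - w j)) 0)
    (ψ : ℝ) (k : V → ℤ) (hθ : ∀ i, θ i = ψ + k i * (Real.pi / 2))
    (hopp : ∀ i j, A i j = 1 → Real.cos (θ j - θ i) ≠ -1) (i₀ j₀ : V) (h₀ : A i₀ j₀ = 1) :
    Real.cos (θ j₀ - θ i₀) = 1 := by
  by_contra hne
  -- coordinates relative to `i₀`
  obtain ⟨c, hc⟩ : ∃ c : V → ℝ, ∀ i, c i = Real.cos (θ i - θ i₀) := ⟨_, fun i => rfl⟩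
  obtain ⟨s, hs⟩ : ∃ s : V → ℝ, ∀ i, s i = Real.sin (θ i - θ i₀) := ⟨_, fun i => rfl⟩
  have hax : ∀ i, Ax (c i) (s i) := by
    intro i
    have : θ i - θ i₀ = ((k i - k i₀ : ℤ) : ℝ) * (Real.pi / 2) := by
      rw [hθ i, hθ i₀]; push_cast; ring
    rw [hc, hs, this]
    exact ax_int _
  have hc0 : c i₀ = 1 := by rw [hc]; simp
  have hs0 : s i₀ = 0 := by rw [hs]; simp
  rw [← hc] at hne
  have hcj : c j₀ = 0 := by
    rcases hax j₀ with ⟨h1, h2⟩ | ⟨h1, h2⟩ | ⟨h1, h2⟩ | ⟨h1, h2⟩
    · exact absurd h1 hne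
    · exact h1
    · rw [hc] at h1
      exact absurd h1 (hopp i₀ j₀ h₀)
    · exact h1
  obtain ⟨σ, hσ, hsj⟩ : ∃ σ : ℝ, (σ = 1 ∨ σ = -1) ∧ s j₀ = σ := by
    rcases hax j₀ with ⟨h1, h2⟩ | ⟨h1, h2⟩ | ⟨h1, h2⟩ | ⟨h1, h2⟩
    · exact absurd h1 hne
    · exact ⟨1, Or.inl rfl, h2⟩
    · rw [hc] at h1
      exact absurd h1 (hopp i₀ j₀ h₀)
    · exact ⟨-1, Or.inr rfl, h2⟩
  have hsin : ∀ i j, Real.sin (θ i - θ j) = s i * c j - c i * s j := by
    intro i j
    have : θ i - θ j = (θ i - θ i₀) - (θ j - θ i₀) := by ring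
    rw [this, Real.sin_sub, hc, hc, hs, hs]
  have hcos : ∀ i j, Real.cos (θ i - θ j) = c i * c j + s i * s j := by
    intro i j
    have : θ i - θ j = (θ i - θ i₀) - (θ j - θ i₀) := by ring
    rw [this, Real.cos_sub, hc, hc, hs, hs]
  -- the test direction
  obtain ⟨v, hv⟩ : ∃ v : V → ℝ, ∀ i, v i = (c i ^ 2 + c i) / 2 - (s i ^ 2 + σ * s i) / 2 :=
    ⟨_, fun i => rfl⟩
  obtain ⟨w, hw⟩ : ∃ w : V → V → ℝ, ∀ i j, w i j = ((v i - v j) ^ 3 - (v i - v j)) / 6 :=
    ⟨_, fun i j => rfl⟩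
  have hloc := hmin v
  have hfirst := first_order A _ _ hloc
  -- the pointwise identity
  have hpt : ∀ (t : ℝ) (i j : V), A i j * (1 - Real.cos (θ i - θ j + t * (v i - v j))) -
      A i j * (1 - Real.cos (θ i - θ j + 0 * (v i - v j))) =
      Real.sin t * (A i j * (Real.sin (θ i - θ j) * (v i - v j))) +
      (2 * Real.sin t - Real.sin (2 * t)) * (A i j * (σ * w i j ^ 2)) := by
    intro t i j
    rcases hA i j with h1 | h1
    · rw [h1]; ring
    have hopp' := hopp j i (by rw [hsym]; exact h1)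
    rw [hcos] at hopp'
    have hfc := fin_case σ (c i) (s i) (c j) (s j) hσ (hax i) (hax j) hopp' (v i) (v j)
      (v i - v j) (w i j) (hv i) (hv j) rfl (hw i j)
    rw [h1, Real.cos_add, Real.cos_add, hcos, hsin, one_mul, one_mul, one_mul, one_mul]
    exact pt_case t σ _ _ _ _ hfc
  obtain ⟨Z, hZ⟩ : ∃ Z : ℝ, Z = ∑ i, ∑ j, A i j * w i j ^ 2 := ⟨_, rfl⟩
  have hZpos : 0 < Z := by
    have h1 : ∀ i j, 0 ≤ A i j * w i j ^ 2 := by
      intro i j
      rcases hA i j with h | h <;> rw [h]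
      · simp
      · positivity
    have h2 : A i₀ j₀ * w i₀ j₀ ^ 2 = 1 := by
      rw [h₀, hw, hv, hv, hc0, hs0, hcj, hsj]
      rcases hσ with h | h <;> rw [h] <;> norm_num
    have h3 : A i₀ j₀ * w i₀ j₀ ^ 2 ≤ Z := by
      rw [hZ]
      calc A i₀ j₀ * w i₀ j₀ ^ 2 ≤ ∑ j, A i₀ j * w i₀ j ^ 2 :=
            Finset.single_le_sum (f := fun j => A i₀ j * w i₀ j ^ 2) (fun j _ => h1 i₀ j)
              (Finset.mem_univ j₀)
        _ ≤ _ := Finset.single_le_sum (f := fun i => ∑ j, A i j * w i j ^ 2)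
              (fun i _ => Finset.sum_nonneg fun j _ => h1 i j) (Finset.mem_univ i₀)
    rw [h2] at h3
    exact lt_of_lt_of_le one_pos h3
  have hdiff : ∀ t : ℝ, phi A (fun i j => θ i - θ j) (fun i j => v i - v j) t -
      phi A (fun i j => θ i - θ j) (fun i j => v i - v j) 0 =
      Real.sin t * (1 - Real.cos t) * (σ * Z) := by
    intro t
    unfold phi
    rw [← mul_sub, ← Finset.sum_sub_distrib]
    simp_rw [← Finset.sum_sub_distrib, hpt t]
    have e1 : ∑ i, ∑ j, (Real.sin t * (A i j * (Real.sin (θ i - θ j) * (v i - v j))) +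
        (2 * Real.sin t - Real.sin (2 * t)) * (A i j * (σ * w i j ^ 2))) =
        Real.sin t * ∑ i, ∑ j, A i j * (Real.sin (θ i - θ j) * (v i - v j)) +
        (2 * Real.sin t - Real.sin (2 * t)) * σ * Z := by
      rw [hZ]
      simp_rw [Finset.mul_sum, ← Finset.sum_add_distrib]
      exact Finset.sum_congr rfl fun i _ => Finset.sum_congr rfl fun j _ => by ring
    rw [e1, hfirst, Real.sin_two_mul]
    ring
  refine osc σ Z hσ hZpos ?_
  have : ∀ᶠ t in nhds (0 : ℝ), phi A (fun i j => θ i - θ j) (fun i j => v i - v j) 0 ≤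
      phi A (fun i j => θ i - θ j) (fun i j => v i - v j) t := hloc
  exact this.mono fun t ht => by rw [← hdiff t]; exact sub_nonneg.mpr ht

/-- Local minimisers in every direction are synchronized. -/
lemma sync_of_min (A : V → V → ℝ) (θ : V → ℝ) (hA : ∀ i j, A i j = 0 ∨ A i j = 1)
    (hsym : ∀ i j, A i j = A j i)
    (N : ℝ) (hN : N = Fintype.card V) (hN0 : 0 < N)
    (hdeg : ∀ i, (3 / 4 - 1 / 10000000) * N ≤ ∑ j, A i j)
    (hmin : ∀ w : V → ℝ, IsLocalMin (phi A (fun i j => θ i - θ j) (fun i j => w i - w j)) 0) :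
    ∀ i j, Real.cos (θ j - θ i) = 1 := by
  classical
  have hcard : ∑ _j : V, (1 : ℝ) = N := by simp [hN]
  -- common neighbours
  have hcn : ∀ i k, ∃ j, A i j = 1 ∧ A k j = 1 := by
    intro i k
    by_contra hno
    push Not at hno
    have h1 : ∀ j, A i j + A k j ≤ 1 := by
      intro j
      rcases hA i j with h | h
      · rcases hA k j with h' | h' <;> rw [h, h'] <;> norm_num
      · rcases hA k j with h' | h'
        · rw [h, h']; norm_num
        · exact absurd h' (hno j h)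
    have h2 : ∑ j, (A i j + A k j) ≤ N := by
      rw [← hcard]; exact Finset.sum_le_sum fun j _ => h1 j
    rw [Finset.sum_add_distrib] at h2
    have := hdeg i
    have := hdeg k
    nlinarith
  -- first order conditions
  have hF : ∀ i, ∑ j, A i j * Real.sin (θ j - θ i) = 0 := by
    intro i
    have h1 := first_order A _ _ (hmin (Pi.single i 1))
    have h2 : ∑ a, ∑ b, A a b * (Real.sin (θ a - θ b) *
        ((Pi.single i 1 : V → ℝ) a - (Pi.single i 1 : V → ℝ) b)) =
        - 2 * ∑ j, A i j * Real.sin (θ j - θ i) := by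
      have e1 : ∀ a b, A a b * (Real.sin (θ a - θ b) *
        ((Pi.single i 1 : V → ℝ) a - (Pi.single i 1 : V → ℝ) b)) =
        (if a = i then A a b * Real.sin (θ a - θ b) else 0) +
        (if b = i then - (A a b * Real.sin (θ a - θ b)) else 0) := by
        intro a b
        simp only [Pi.single_apply]
        split_ifs <;> ring
      simp_rw [e1, Finset.sum_add_distrib]
      simp only [Finset.sum_ite_eq', Finset.mem_univ, if_true]
      have e2 : ∑ a, ∑ b, (if a = i then A a b * Real.sin (θ a - θ b) else 0) =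
          ∑ b, A i b * Real.sin (θ i - θ b) := by
        rw [Finset.sum_comm]
        simp only [Finset.sum_ite_eq', Finset.mem_univ, if_true]
      rw [e2, Finset.mul_sum, ← Finset.sum_add_distrib]
      refine Finset.sum_congr rfl fun j _ => ?_
      rw [hsym j i]
      have : Real.sin (θ i - θ j) = - Real.sin (θ j - θ i) := by
        rw [← Real.sin_neg]; congr 1; ring
      rw [this]; ring
    rw [h2] at h1
    linarith
  have hz : ∀ i, 0 ≤ ∑ j, A i j * Real.cos (θ j - θ i) := by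
    intro i
    have h1 := second_order A _ _ (hmin (Pi.single i 1))
    have hsc : ∀ a b, Real.cos (θ a - θ b) = Real.cos (θ b - θ a) := by
      intro a b; rw [← Real.cos_neg]; congr 1; ring
    have h2 : ∑ a, ∑ b, A a b * (Real.cos (θ a - θ b) *
        ((Pi.single i 1 : V → ℝ) a - (Pi.single i 1 : V → ℝ) b) ^ 2) =
        2 * ∑ j, A i j * Real.cos (θ j - θ i) - 2 * A i i := by
      have e1 : ∀ a b, A a b * (Real.cos (θ a - θ b) *
        ((Pi.single i 1 : V → ℝ) a - (Pi.single i 1 : V → ℝ) b) ^ 2) =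
        (if a = i then A a b * Real.cos (θ a - θ b) else 0) +
        (if b = i then A a b * Real.cos (θ a - θ b) else 0) -
        (if a = i then (if b = i then 2 * A i i else 0) else 0) := by
        intro a b
        simp only [Pi.single_apply]
        split_ifs with h1 h2
        · subst h1; subst h2; simp; ring
        · ring
        · ring
        · ring
      simp_rw [e1, Finset.sum_sub_distrib, Finset.sum_add_distrib]
      simp only [Finset.sum_ite_eq', Finset.mem_univ, if_true]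
      have e2 : ∑ a, ∑ b, (if a = i then A a b * Real.cos (θ a - θ b) else 0) =
          ∑ b, A i b * Real.cos (θ i - θ b) := by
        rw [Finset.sum_comm]
        simp only [Finset.sum_ite_eq', Finset.mem_univ, if_true]
      have e3 : ∑ a, ∑ b, (if a = i then (if b = i then 2 * A i i else 0) else 0) = 2 * A i i := by
        rw [Finset.sum_comm]
        simp only [Finset.sum_ite_eq', Finset.mem_univ, if_true]
      rw [e2, e3]
      have e4 : ∑ b, A i b * Real.cos (θ i - θ b) = ∑ j, A i j * Real.cos (θ j - θ i) :=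
        Finset.sum_congr rfl fun j _ => by rw [hsc]
      have e5 : ∑ a, A a i * Real.cos (θ a - θ i) = ∑ j, A i j * Real.cos (θ j - θ i) :=
        Finset.sum_congr rfl fun j _ => by rw [hsym]
      rw [e4, e5]; ring
    rw [h2] at h1
    have : 0 ≤ A i i := by rcases hA i i with h | h <;> rw [h]; norm_num
    linarith
  have hS : 0 ≤ ∑ i, ∑ j, A i j * (Real.cos (θ j - θ i) - Real.cos (θ j - θ i) ^ 2) := by
    have h1 := second_order A _ _ (hmin (fun i => Real.cos (θ i)))
    have h2 := second_order A _ _ (hmin (fun i => Real.sin (θ i)))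
    have h3 : ∑ i, ∑ j, A i j * (Real.cos (θ i - θ j) * (Real.cos (θ i) - Real.cos (θ j)) ^ 2) +
        ∑ i, ∑ j, A i j * (Real.cos (θ i - θ j) * (Real.sin (θ i) - Real.sin (θ j)) ^ 2) =
        2 * ∑ i, ∑ j, A i j * (Real.cos (θ j - θ i) - Real.cos (θ j - θ i) ^ 2) := by
      simp_rw [Finset.mul_sum, ← Finset.sum_add_distrib]
      refine Finset.sum_congr rfl fun i _ => Finset.sum_congr rfl fun j _ => ?_
      have e1 : Real.cos (θ j - θ i) = Real.cos (θ i - θ j) := by
        rw [← Real.cos_neg]; congr 1; ring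
      have e2 := Real.sin_sq_add_cos_sq (θ i)
      have e3 := Real.sin_sq_add_cos_sq (θ j)
      have e4 := Real.cos_sub (θ i) (θ j)
      rw [e1]
      have e5 : (Real.cos (θ i) - Real.cos (θ j)) ^ 2 + (Real.sin (θ i) - Real.sin (θ j)) ^ 2 =
          2 - 2 * Real.cos (θ i - θ j) := by
        rw [e4]; linarith
      calc _ = A i j * (Real.cos (θ i - θ j) * ((Real.cos (θ i) - Real.cos (θ j)) ^ 2 +
            (Real.sin (θ i) - Real.sin (θ j)) ^ 2)) := by ring
        _ = _ := by rw [e5]; ring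
    linarith
  rcases core A θ hA hsym N hN hN0 hdeg hcn hF hz hS with h | ⟨ψ, k, hθ⟩
  · exact h
  -- exact four clusters
  have hax : ∀ i j, Ax (Real.cos (θ j - θ i)) (Real.sin (θ j - θ i)) := by
    intro i j
    have : θ j - θ i = ((k j - k i : ℤ) : ℝ) * (Real.pi / 2) := by
      rw [hθ i, hθ j]; push_cast; ring
    rw [this]
    exact ax_int _
  have hterm : ∀ i j, A i j * (Real.cos (θ j - θ i) - Real.cos (θ j - θ i) ^ 2) ≤ 0 := by
    intro i j
    rcases hA i j with h | h <;> rw [h]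
    · simp
    · rcases hax i j with ⟨h1, h2⟩ | ⟨h1, h2⟩ | ⟨h1, h2⟩ | ⟨h1, h2⟩ <;> rw [h1] <;> norm_num
  have hopp : ∀ i j, A i j = 1 → Real.cos (θ j - θ i) ≠ -1 := by
    intro i j hij hcos
    have h1 : ∑ i, ∑ j, A i j * (Real.cos (θ j - θ i) - Real.cos (θ j - θ i) ^ 2) ≤
        A i j * (Real.cos (θ j - θ i) - Real.cos (θ j - θ i) ^ 2) := by
      calc _ ≤ ∑ j, A i j * (Real.cos (θ j - θ i) - Real.cos (θ j - θ i) ^ 2) := by
            have := Finset.single_le_sum
              (f := fun i => - ∑ j, A i j * (Real.cos (θ j - θ i) - Real.cos (θ j - θ i) ^ 2))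
              (s := Finset.univ)
              (fun i _ => neg_nonneg.mpr (Finset.sum_nonpos fun j _ => hterm i j))
              (Finset.mem_univ i)
            rw [Finset.sum_neg_distrib] at this
            linarith
        _ ≤ _ := by
            have := Finset.single_le_sum
              (f := fun j => - (A i j * (Real.cos (θ j - θ i) - Real.cos (θ j - θ i) ^ 2)))
              (s := Finset.univ)
              (fun j _ => neg_nonneg.mpr (hterm i j))
              (Finset.mem_univ j)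
            rw [Finset.sum_neg_distrib] at this
            linarith
    rw [hij, hcos] at h1
    norm_num at h1
    linarith
  have hedge : ∀ i j, A i j = 1 → Real.cos (θ j - θ i) = 1 :=
    fun i j hij => no_adj A θ hA hsym hmin ψ k hθ hopp i j hij
  intro i j
  obtain ⟨l, hl1, hl2⟩ := hcn i j
  have h1 := hedge i l hl1
  have h2 := hedge j l hl2
  have h3 : Real.sin (θ l - θ i) = 0 := by
    have := Real.sin_sq_add_cos_sq (θ l - θ i)
    rw [h1] at this
    have : Real.sin (θ l - θ i) ^ 2 = 0 := by linarith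
    exact pow_eq_zero_iff two_ne_zero |>.mp this
  have : θ j - θ i = (θ l - θ i) - (θ l - θ j) := by ring
  rw [this, Real.cos_sub, h1, h2, h3]
  ring

end Pool.Agent.Lib.MP_2fe47b_co
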