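import Pool.Agent.Lib.MP_2fe47b_co.Pointwise
import Pool.Agent.Lib.MP_2fe47b_co.Coarse

/-!
# Kuramoto networks: rigidity near the four-cluster state
-/

open Finset

namespace Pool.Agent.Lib.MP_2fe47b_co

variable {V : Type*} [Fintype V]

/-- Row sums of the same-cluster indicator. -/
lemma row_bound (c s x y : V → ℝ) (hcs : ∀ i, Ax (c i) (s i))
    (hxy : ∀ i, x i ^ 2 + y i ^ 2 = 1) (hy : ∀ i, 0 < y i) (N : ℝ) (hN : N = Fintype.card V)
    (hN0 : 0 < N)
    (hx1 : ∑ j, |x j| ≤ 2 / 1000 * N) (hx2 : ∑ j, x j ^ 2 ≤ 4 / 1000000 * N)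
    (hP : |∑ j, (c j * y j - s j * x j)| ≤ 45 / 100000 * N)
    (hQ : |∑ j, (s j * y j + c j * x j)| ≤ 45 / 100000 * N)
    (hG : |∑ j, (c j ^ 2 - s j ^ 2) * (1 - 2 * x j ^ 2)| ≤ 9 / 10000 * N) (i : V) :
    ∑ j, ((c i * c j + s i * s j) ^ 2 + (c i * c j + s i * s j)) / 2 ≤
      (1 / 4 + 3 / 2000) * N := by
  have hcard : ∑ _j : V, (1 : ℝ) = N := by simp [hN]
  have hax : ∀ j, c j ^ 2 + s j ^ 2 = 1 ∧ c j * s j = 0 ∧ |c j| ≤ 1 ∧ |s j| ≤ 1 ∧
      |c j| + |s j| = 1 := by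
    intro j
    rcases hcs j with ⟨h1, h2⟩ | ⟨h1, h2⟩ | ⟨h1, h2⟩ | ⟨h1, h2⟩ <;> rw [h1, h2] <;> norm_num
  have hy1 : ∀ j, 0 ≤ 1 - y j ∧ 1 - y j ≤ |x j| := by
    intro j
    have h1 := hxy j
    have h2 := hy j
    have h3 : y j ≤ 1 := by nlinarith
    refine ⟨by linarith, ?_⟩
    have h4 : |x j| ≤ 1 := by
      rw [← sq_le_one_iff_abs_le_one]; nlinarith
    have h5 : x j ^ 2 = |x j| ^ 2 := (sq_abs _).symm
    nlinarith [abs_nonneg (x j)]
  have hC : |∑ j, c j| ≤ 45 / 100000 * N + 2 / 1000 * N := by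
    have h1 : ∑ j, c j = ∑ j, (c j * y j - s j * x j) + ∑ j, (c j * (1 - y j) + s j * x j) := by
      rw [← Finset.sum_add_distrib]
      exact Finset.sum_congr rfl fun j _ => by ring
    have h2 : |∑ j, (c j * (1 - y j) + s j * x j)| ≤ ∑ j, |x j| := by
      refine (Finset.abs_sum_le_sum_abs _ _).trans (Finset.sum_le_sum fun j _ => ?_)
      obtain ⟨-, -, -, -, h5⟩ := hax j
      calc |c j * (1 - y j) + s j * x j| ≤ |c j * (1 - y j)| + |s j * x j| := abs_add_le _ _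
        _ = |c j| * (1 - y j) + |s j| * |x j| := by
          rw [abs_mul, abs_mul, abs_of_nonneg (hy1 j).1]
        _ ≤ |c j| * |x j| + |s j| * |x j| := by
          have := mul_le_mul_of_nonneg_left (hy1 j).2 (abs_nonneg (c j))
          linarith
        _ = (|c j| + |s j|) * |x j| := by ring
        _ = |x j| := by rw [h5, one_mul]
    rw [h1]
    exact (abs_add_le _ _).trans (add_le_add hP (h2.trans hx1))
  have hSs : |∑ j, s j| ≤ 45 / 100000 * N + 2 / 1000 * N := by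
    have h1 : ∑ j, s j = ∑ j, (s j * y j + c j * x j) + ∑ j, (s j * (1 - y j) - c j * x j) := by
      rw [← Finset.sum_add_distrib]
      exact Finset.sum_congr rfl fun j _ => by ring
    have h2 : |∑ j, (s j * (1 - y j) - c j * x j)| ≤ ∑ j, |x j| := by
      refine (Finset.abs_sum_le_sum_abs _ _).trans (Finset.sum_le_sum fun j _ => ?_)
      obtain ⟨-, -, -, -, h5⟩ := hax j
      calc |s j * (1 - y j) - c j * x j| ≤ |s j * (1 - y j)| + |c j * x j| := by
            rw [sub_eq_add_neg]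
            refine (abs_add_le _ _).trans ?_
            rw [abs_neg]
        _ = |s j| * (1 - y j) + |c j| * |x j| := by
          rw [abs_mul, abs_mul, abs_of_nonneg (hy1 j).1]
        _ ≤ |s j| * |x j| + |c j| * |x j| := by
          have := mul_le_mul_of_nonneg_left (hy1 j).2 (abs_nonneg (s j))
          linarith
        _ = (|c j| + |s j|) * |x j| := by ring
        _ = |x j| := by rw [h5, one_mul]
    rw [h1]
    exact (abs_add_le _ _).trans (add_le_add hQ (h2.trans hx1))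
  have hD : |∑ j, (c j ^ 2 - s j ^ 2)| ≤ 9 / 10000 * N + 2 * (4 / 1000000 * N) := by
    have h1 : ∑ j, (c j ^ 2 - s j ^ 2) = ∑ j, (c j ^ 2 - s j ^ 2) * (1 - 2 * x j ^ 2) +
        ∑ j, (c j ^ 2 - s j ^ 2) * (2 * x j ^ 2) := by
      rw [← Finset.sum_add_distrib]
      exact Finset.sum_congr rfl fun j _ => by ring
    have h2 : |∑ j, (c j ^ 2 - s j ^ 2) * (2 * x j ^ 2)| ≤ 2 * ∑ j, x j ^ 2 := by
      rw [Finset.mul_sum]
      refine (Finset.abs_sum_le_sum_abs _ _).trans (Finset.sum_le_sum fun j _ => ?_)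
      obtain ⟨h3, -⟩ := hax j
      rw [abs_mul, abs_of_nonneg (by positivity : (0 : ℝ) ≤ 2 * x j ^ 2)]
      have : |c j ^ 2 - s j ^ 2| ≤ 1 := by
        rw [abs_le]; constructor <;> nlinarith [sq_nonneg (c j), sq_nonneg (s j)]
      nlinarith [sq_nonneg (x j)]
    rw [h1]
    refine (abs_add_le _ _).trans (add_le_add hG (h2.trans ?_))
    linarith
  have hsum1 : ∑ j, c j ^ 2 + ∑ j, s j ^ 2 = N := by
    rw [← Finset.sum_add_distrib, ← hcard]
    exact Finset.sum_congr rfl fun j _ => (hax j).1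
  have hsum2 : ∑ j, c j ^ 2 - ∑ j, s j ^ 2 = ∑ j, (c j ^ 2 - s j ^ 2) := by
    rw [← Finset.sum_sub_distrib]
  have hexp : ∑ j, ((c i * c j + s i * s j) ^ 2 + (c i * c j + s i * s j)) / 2 =
      (c i ^ 2 * ∑ j, c j ^ 2 + s i ^ 2 * ∑ j, s j ^ 2 + c i * ∑ j, c j + s i * ∑ j, s j) / 2 := by
    have : ∀ j, ((c i * c j + s i * s j) ^ 2 + (c i * c j + s i * s j)) / 2 =
        (c i ^ 2 * c j ^ 2 + s i ^ 2 * s j ^ 2 + c i * c j + s i * s j) / 2 := by
      intro j
      have h1 := (hax j).2.1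
      have h2 : (c i * c j + s i * s j) ^ 2 = c i ^ 2 * c j ^ 2 + s i ^ 2 * s j ^ 2 +
          2 * (c i * s i) * (c j * s j) := by ring
      rw [h2, h1]; ring
    simp_rw [this, ← Finset.sum_div, Finset.sum_add_distrib, ← Finset.mul_sum]
  rw [hexp]
  rw [abs_le] at hC hSs hD
  rcases hcs i with ⟨h1, h2⟩ | ⟨h1, h2⟩ | ⟨h1, h2⟩ | ⟨h1, h2⟩ <;> rw [h1, h2] <;> norm_num <;>
    linarith [hC.1, hC.2, hSs.1, hSs.2, hD.1, hD.2]

lemma step_C (A : V → V → ℝ) (c s x y : V → ℝ) (hA : ∀ i j, A i j = 0 ∨ A i j = 1)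
    (hsym : ∀ i j, A i j = A j i)
    (hcs : ∀ i, Ax (c i) (s i))
    (hxy : ∀ i, x i ^ 2 + y i ^ 2 = 1) (hy : ∀ i, 0 < y i) (hx : ∀ i, x i ^ 2 ≤ 1 / 2)
    (N : ℝ) (hN : N = Fintype.card V) (hN0 : 0 < N)
    (hdeg : ∀ i, (3 / 4 - 1 / 10000000) * N ≤ ∑ j, A i j)
    (C Sn : V → V → ℝ)
    (hC : ∀ i j, C i j = (c i * c j + s i * s j) * (y i * y j + x i * x j) -
      (s j * c i - c j * s i) * (x j * y i - y j * x i))
    (hSn : ∀ i j, Sn i j = (s j * c i - c j * s i) * (y i * y j + x i * x j) +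
      (c i * c j + s i * s j) * (x j * y i - y j * x i))
    (hF : ∀ i, ∑ j, A i j * Sn i j = 0)
    (hS : 0 ≤ ∑ i, ∑ j, A i j * (C i j - C i j ^ 2))
    (hL : ∑ i, ∑ j, (1 - A i j) * (1 + C i j) ≤ 4 / 10000000 * N ^ 2)
    (hW : ∑ j, x j * y j * (1 - 2 * x j ^ 2) = 0)
    (hx1 : ∑ j, |x j| ≤ 2 / 1000 * N) (hx2 : ∑ j, x j ^ 2 ≤ 4 / 1000000 * N)
    (hrow : ∀ i, ∑ j, ((c i * c j + s i * s j) ^ 2 + (c i * c j + s i * s j)) / 2 ≤
      (1 / 4 + 3 / 2000) * N) : ∀ i, x i = 0 := by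
  classical
  have hcard : ∑ _j : V, (1 : ℝ) = N := by simp [hN]
  obtain ⟨V2, hV2⟩ : ∃ V2 : ℝ, V2 = ∑ j, x j ^ 2 := ⟨_, rfl⟩
  obtain ⟨X1, hX1⟩ : ∃ X1 : ℝ, X1 = ∑ j, |x j| := ⟨_, rfl⟩
  rw [← hV2] at hx2
  rw [← hX1] at hx1
  have hV20 : 0 ≤ V2 := by rw [hV2]; exact Finset.sum_nonneg fun j _ => sq_nonneg _
  have hX10 : 0 ≤ X1 := by rw [hX1]; exact Finset.sum_nonneg fun j _ => abs_nonneg _
  have habs : ∀ i, |x i| ≤ 3 / 4 := by
    intro i
    have h1 := hx i
    have h2 : |x i| ^ 2 ≤ 1 / 2 := by rw [sq_abs]; exact h1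
    nlinarith [abs_nonneg (x i)]
  have hA0 : ∀ i j, 0 ≤ A i j := by
    intro i j; rcases hA i j with h | h <;> rw [h]; norm_num
  have hA1 : ∀ i j, A i j ≤ 1 := by
    intro i j; rcases hA i j with h | h <;> rw [h]; norm_num
  -- abbreviations
  obtain ⟨K, hK⟩ : ∃ K : V → V → ℝ, ∀ i j, K i j = c i * c j + s i * s j :=
    ⟨_, fun _ _ => rfl⟩
  obtain ⟨Lm, hLm⟩ : ∃ Lm : V → V → ℝ, ∀ i j, Lm i j = s j * c i - c j * s i :=
    ⟨_, fun _ _ => rfl⟩
  have hKL : ∀ i j, Ax (K i j) (Lm i j) := by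
    intro i j; rw [hK, hLm]; exact (hcs i).rel (hcs j)
  obtain ⟨I, hI⟩ : ∃ I : V → V → ℝ, ∀ i j, I i j = ((K i j) ^ 2 + K i j) / 2 :=
    ⟨_, fun _ _ => rfl⟩
  obtain ⟨J, hJ⟩ : ∃ J : V → V → ℝ, ∀ i j, J i j = -3 * I i j + 2 * (1 - (K i j) ^ 2) :=
    ⟨_, fun _ _ => rfl⟩
  obtain ⟨err, herr⟩ : ∃ err : V → V → ℝ, ∀ i j, err i j =
      2 * |x i * x j| * (x i ^ 2 + x j ^ 2) +
      2 * x i ^ 2 * x j ^ 2 + 3 / 2 * |x i * x j| * (|x i| + |x j|) := ⟨_, fun _ _ => rfl⟩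
  obtain ⟨H, hH⟩ : ∃ H : V → ℝ, ∀ i, H i = 1 / y i - y i ^ 2 + x i ^ 2 := ⟨_, fun _ => rfl⟩
  have hIsym : ∀ i j, I i j = I j i := by
    intro i j; simp only [hI, hK]; ring
  have hI0 : ∀ i j, 0 ≤ I i j ∧ I i j ≤ 1 := by
    intro i j
    rcases hKL i j with ⟨h1, -⟩ | ⟨h1, -⟩ | ⟨h1, -⟩ | ⟨h1, -⟩ <;> simp only [hI, h1] <;> norm_num
  -- force balance
  have hSnanti : ∀ i j, Sn j i = - Sn i j := by
    intro i j; rw [hSn, hSn]; ring
  have hforce : ∑ i, ∑ j, A i j * ((x j / y j - x i / y i) * Sn i j) = 0 := by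
    have e1 : ∑ i, ∑ j, A i j * (x i / y i * Sn i j) = 0 := by
      apply Finset.sum_eq_zero
      intro i _
      have : ∀ j, A i j * (x i / y i * Sn i j) = x i / y i * (A i j * Sn i j) := by
        intro j; ring
      simp_rw [this, ← Finset.mul_sum, hF i, mul_zero]
    have e2 : ∑ i, ∑ j, A i j * (x j / y j * Sn i j) = 0 := by
      rw [Finset.sum_comm]
      apply Finset.sum_eq_zero
      intro j _
      have : ∀ i, A i j * (x j / y j * Sn i j) = - (x j / y j) * (A j i * Sn j i) := by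
        intro i; rw [hSnanti i j, hsym i j]; ring
      simp_rw [this, ← Finset.mul_sum, hF j, mul_zero]
    have : ∀ i j, A i j * ((x j / y j - x i / y i) * Sn i j) =
        A i j * (x j / y j * Sn i j) - A i j * (x i / y i * Sn i j) := by
      intro i j; ring
    simp_rw [this, Finset.sum_sub_distrib]
    rw [e1, e2, sub_zero]
  -- main pointwise bound summed up
  have hmain : ∑ i, ∑ j, A i j * (C i j - C i j ^ 2) ≤
      ∑ i, ∑ j, A i j * (I i j * (H i + H j) - (x i ^ 2 + x j ^ 2) + J i j * (x i * x j) +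
        err i j) := by
    have e1 : ∑ i, ∑ j, A i j * (C i j - C i j ^ 2) =
        ∑ i, ∑ j, A i j * (C i j - C i j ^ 2 + (x j / y j - x i / y i) * Sn i j) := by
      have : ∀ i j, A i j * (C i j - C i j ^ 2 + (x j / y j - x i / y i) * Sn i j) =
          A i j * (C i j - C i j ^ 2) + A i j * ((x j / y j - x i / y i) * Sn i j) := by
        intro i j; ring
      simp_rw [this, Finset.sum_add_distrib]
      rw [hforce, add_zero]
    rw [e1]
    refine Finset.sum_le_sum fun i _ => Finset.sum_le_sum fun j _ => ?_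
    apply mul_le_mul_of_nonneg_left _ (hA0 i j)
    have := P_all (hxy i) (hxy j) (hy i) (hy j) (hx i) (hx j) (K i j) (Lm i j) (hKL i j)
    rw [hC, hSn, ← hK, ← hLm]
    refine this.trans (le_of_eq ?_)
    rw [hH, hH, hJ, hI, herr]
    ring
  -- separable part
  have hsep : ∑ i, ∑ j, A i j * (I i j * (H i + H j) - (x i ^ 2 + x j ^ 2)) ≤
      - (74 / 1000) * N * V2 := by
    have e1 : ∑ i, ∑ j, A i j * (I i j * (H i + H j) - (x i ^ 2 + x j ^ 2)) =
        ∑ i, (2 * H i * ∑ j, A i j * I i j - 2 * x i ^ 2 * ∑ j, A i j) := by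
      have f1 : ∑ i, ∑ j, A i j * (I i j * H j) = ∑ i, ∑ j, A i j * (I i j * H i) := by
        rw [Finset.sum_comm]
        refine Finset.sum_congr rfl fun i _ => Finset.sum_congr rfl fun j _ => ?_
        rw [hsym, hIsym]
      have f2 : ∑ i, ∑ j, A i j * x j ^ 2 = ∑ i, ∑ j, A i j * x i ^ 2 := by
        rw [Finset.sum_comm]
        refine Finset.sum_congr rfl fun i _ => Finset.sum_congr rfl fun j _ => ?_
        rw [hsym]
      have f3 : ∀ i j, A i j * (I i j * (H i + H j) - (x i ^ 2 + x j ^ 2)) =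
          A i j * (I i j * H i) + A i j * (I i j * H j) - A i j * x i ^ 2 - A i j * x j ^ 2 := by
        intro i j; ring
      simp_rw [f3, Finset.sum_sub_distrib, Finset.sum_add_distrib]
      rw [f1, f2]
      have f4 : ∀ i, ∑ j, A i j * (I i j * H i) = H i * ∑ j, A i j * I i j := by
        intro i
        rw [Finset.mul_sum]
        exact Finset.sum_congr rfl fun j _ => by ring
      have f5 : ∀ i, ∑ j, A i j * x i ^ 2 = x i ^ 2 * ∑ j, A i j := by
        intro i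
        rw [Finset.mul_sum]
        exact Finset.sum_congr rfl fun j _ => by ring
      simp_rw [f4, f5]
      have f6 : ∀ i, 2 * H i * ∑ j, A i j * I i j = 2 * (H i * ∑ j, A i j * I i j) := by
        intro i; ring
      have f7 : ∀ i, 2 * x i ^ 2 * ∑ j, A i j = 2 * (x i ^ 2 * ∑ j, A i j) := by
        intro i; ring
      simp_rw [f6, f7, ← Finset.mul_sum]
      ring
    rw [e1, hV2, Finset.mul_sum]
    refine Finset.sum_le_sum fun i _ => ?_
    have g1 : ∑ j, A i j * I i j ≤ (1 / 4 + 3 / 2000) * N := by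
      refine le_trans (Finset.sum_le_sum fun j _ => ?_) (hrow i)
      rw [← hK, ← hI]
      have := hI0 i j
      have h2 := hA1 i j
      have : A i j * I i j ≤ 1 * I i j := mul_le_mul_of_nonneg_right h2 this.1
      rw [one_mul] at this
      exact this
    have g2 := hdeg i
    have hyi := hy i
    have g3 : 1 / y i - 1 ≤ 5 / 6 * x i ^ 2 := by
      have h1 := hxy i
      have h2 := hx i
      have h3 : 7 / 10 ≤ y i := by nlinarith
      have h4 : y i ≤ 1 := by nlinarith [sq_nonneg (x i)]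
      have h5 : 1 / y i - 1 = (1 - y i) / y i := by field_simp
      rw [h5, div_le_iff₀ hyi]
      have h6 : x i ^ 2 = (1 - y i) * (1 + y i) := by linarith
      rw [h6]
      have h7 : 0 ≤ 1 - y i := by linarith
      have h8 : 6 / 5 ≤ (1 + y i) * y i := by nlinarith
      nlinarith
    have g4 : H i ≤ 17 / 6 * x i ^ 2 := by
      rw [hH]
      have := hxy i
      linarith
    have g5 : 0 ≤ H i := by
      rw [hH]
      have h1 := hxy i
      have h4 : y i ≤ 1 := by nlinarith [sq_nonneg (x i)]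
      have h5 : 1 ≤ 1 / y i := by rw [le_div_iff₀ hyi]; linarith
      nlinarith [sq_nonneg (x i)]
    have g6 : 2 * H i * ∑ j, A i j * I i j ≤ 2 * H i * ((1 / 4 + 3 / 2000) * N) :=
      mul_le_mul_of_nonneg_left g1 (by linarith)
    have g7 : 2 * x i ^ 2 * ((3 / 4 - 1 / 10000000) * N) ≤ 2 * x i ^ 2 * ∑ j, A i j :=
      mul_le_mul_of_nonneg_left g2 (by positivity)
    have g8 : 2 * H i * ((1 / 4 + 3 / 2000) * N) ≤
        2 * (17 / 6 * x i ^ 2) * ((1 / 4 + 3 / 2000) * N) := by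
      apply mul_le_mul_of_nonneg_right _ (by positivity)
      linarith
    have g9 : 0 ≤ N * x i ^ 2 := by positivity
    nlinarith
  -- cross terms, complete sums
  have hcross : ∑ i, ∑ j, J i j * (x i * x j) ≤ (∑ i, x i) ^ 2 / 4 := by
    have hax : ∀ j, c j ^ 2 + s j ^ 2 = 1 ∧ c j * s j = 0 := by
      intro j
      rcases hcs j with ⟨h1, h2⟩ | ⟨h1, h2⟩ | ⟨h1, h2⟩ | ⟨h1, h2⟩ <;> rw [h1, h2] <;> norm_num
    obtain ⟨α, hα⟩ : ∃ α : ℝ, α = ∑ j, c j ^ 2 * x j := ⟨_, rfl⟩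
    obtain ⟨β, hβ⟩ : ∃ β : ℝ, β = ∑ j, s j ^ 2 * x j := ⟨_, rfl⟩
    obtain ⟨γ, hγ⟩ : ∃ γ : ℝ, γ = ∑ j, c j * x j := ⟨_, rfl⟩
    obtain ⟨δ, hδ⟩ : ∃ δ : ℝ, δ = ∑ j, s j * x j := ⟨_, rfl⟩
    have hsum : ∑ i, x i = α + β := by
      rw [hα, hβ, ← Finset.sum_add_distrib]
      refine Finset.sum_congr rfl fun j _ => ?_
      rw [← add_mul, (hax j).1, one_mul]
    have hmul : ∀ f g : V → ℝ, (∑ i, f i) * (∑ j, g j) = ∑ i, ∑ j, f i * g j := by
      intro f g
      rw [Finset.sum_mul_sum]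
    have e1 : ∑ i, ∑ j, J i j * (x i * x j) =
        - (7 / 2) * (α * α + β * β) - 3 / 2 * (γ * γ + δ * δ) +
          2 * ((∑ i, x i) * (∑ i, x i)) := by
      rw [hα, hβ, hγ, hδ, hmul, hmul, hmul, hmul, hmul]
      simp_rw [← Finset.sum_add_distrib, Finset.mul_sum, ← Finset.sum_sub_distrib,
        ← Finset.sum_add_distrib]
      refine Finset.sum_congr rfl fun i _ => Finset.sum_congr rfl fun j _ => ?_
      have h1 := (hax j).2
      have h2 : (c i * c j + s i * s j) ^ 2 = c i ^ 2 * c j ^ 2 + s i ^ 2 * s j ^ 2 := by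
        have : (c i * c j + s i * s j) ^ 2 = c i ^ 2 * c j ^ 2 + s i ^ 2 * s j ^ 2 +
          2 * (c i * s i) * (c j * s j) := by ring
        rw [this, h1]; ring
      rw [hJ, hI, hK, h2]
      ring
    rw [e1, hsum]
    nlinarith [sq_nonneg (α - β), sq_nonneg γ, sq_nonneg δ]
  -- missing pairs
  obtain ⟨h, hh⟩ : ∃ h : V → V → ℝ, ∀ i j, h i j = 1 - ((K i j) ^ 2 - K i j) / 2 :=
    ⟨_, fun _ _ => rfl⟩
  have hh01 : ∀ i j, h i j = 0 ∨ h i j = 1 := by
    intro i j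
    rcases hKL i j with ⟨h1, -⟩ | ⟨h1, -⟩ | ⟨h1, -⟩ | ⟨h1, -⟩ <;> simp only [hh, h1] <;> norm_num
  have hJh : ∀ i j, |J i j| ≤ 3 * h i j := by
    intro i j
    rcases hKL i j with ⟨h1, -⟩ | ⟨h1, -⟩ | ⟨h1, -⟩ | ⟨h1, -⟩ <;>
      simp only [hh, hJ, hI, h1] <;> norm_num
  have hBh01 : ∀ i j, (1 - A i j) * h i j = 0 ∨ (1 - A i j) * h i j = 1 := by
    intro i j
    rcases hA i j with h1 | h1 <;> rcases hh01 i j with h2 | h2 <;> rw [h1, h2] <;> norm_num
  have hBh0 : ∀ i j, 0 ≤ (1 - A i j) * h i j := by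
    intro i j; rcases hBh01 i j with h | h <;> rw [h]; norm_num
  have hBh1 : ∀ i j, (1 - A i j) * h i j ≤ 1 := by
    intro i j; rcases hBh01 i j with h | h <;> rw [h]; norm_num
  have hNV : ∑ i, ∑ j, (x i ^ 2 + x j ^ 2) = 2 * N * V2 := by
    simp_rw [Finset.sum_add_distrib, Finset.sum_const, Finset.card_univ, nsmul_eq_mul]
    rw [← hN, ← Finset.mul_sum, ← hV2]; ring
  have hBhsum : ∑ i, ∑ j, (1 - A i j) * h i j ≤ 168 / 10000000 * N ^ 2 := by
    have h1 : ∀ i j, (1 - A i j) * h i j ≤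
        2 * ((1 - A i j) * (1 + C i j)) + 2 * (x i ^ 2 + x j ^ 2) := by
      intro i j
      have hcd : 0 ≤ y i * y j + x i * x j := by
        have h1 := mul_pos (hy i) (hy j)
        have : (x i * x j) ^ 2 ≤ (y i * y j) ^ 2 := by
          rw [mul_pow, mul_pow]
          have h2 := hxy i
          have h3 := hxy j
          have : y i ^ 2 = 1 - x i ^ 2 := by linarith
          have : y j ^ 2 = 1 - x j ^ 2 := by linarith
          nlinarith [hx i, hx j]
        have := abs_le_of_sq_le_sq' this h1.le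
        linarith [this.1]
      have hcd1 : y i * y j + x i * x j ≤ 1 := by
        nlinarith [sq_nonneg (y i - y j), sq_nonneg (x i - x j), hxy i, hxy j]
      have hsd : |x j * y i - y j * x i| ≤ |x i| + |x j| := by
        have hyi1 : |y i| ≤ 1 := by
          rw [← sq_le_one_iff_abs_le_one]; nlinarith [hxy i, sq_nonneg (x i)]
        have hyj1 : |y j| ≤ 1 := by
          rw [← sq_le_one_iff_abs_le_one]; nlinarith [hxy j, sq_nonneg (x j)]
        calc |x j * y i - y j * x i| ≤ |x j * y i| + |y j * x i| := by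
              rw [sub_eq_add_neg]
              refine (abs_add_le _ _).trans ?_
              rw [abs_neg]
          _ = |x j| * |y i| + |y j| * |x i| := by rw [abs_mul, abs_mul]
          _ ≤ _ := by nlinarith [abs_nonneg (x i), abs_nonneg (x j)]
      have hq : |x i| + |x j| ≤ 1 / 2 + x i ^ 2 + x j ^ 2 := by
        have e1 : x i ^ 2 = |x i| ^ 2 := (sq_abs _).symm
        have e2 : x j ^ 2 = |x j| ^ 2 := (sq_abs _).symm
        rw [e1, e2]
        nlinarith [sq_nonneg (|x i| - 1 / 2), sq_nonneg (|x j| - 1 / 2)]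
      have hsd' := abs_le.mp hsd
      have hx2 : 0 ≤ x i ^ 2 + x j ^ 2 := by positivity
      rcases hA i j with h1 | h1
      · rw [h1, hC]
        rw [← hK, ← hLm]
        rcases hKL i j with ⟨h2, h3⟩ | ⟨h2, h3⟩ | ⟨h2, h3⟩ | ⟨h2, h3⟩ <;>
          simp only [hh, h2, h3] <;> norm_num <;> linarith [hsd'.1, hsd'.2]
      · rw [h1]
        have : (1 - (1 : ℝ)) * h i j = 0 := by ring
        rw [this]
        have : 2 * ((1 - (1 : ℝ)) * (1 + C i j)) = 0 := by ring
        rw [this]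
        positivity
    calc ∑ i, ∑ j, (1 - A i j) * h i j ≤
        ∑ i, ∑ j, (2 * ((1 - A i j) * (1 + C i j)) + 2 * (x i ^ 2 + x j ^ 2)) :=
          Finset.sum_le_sum fun i _ => Finset.sum_le_sum fun j _ => h1 i j
      _ = 2 * ∑ i, ∑ j, (1 - A i j) * (1 + C i j) + 2 * (2 * N * V2) := by
        rw [← hNV]
        simp_rw [Finset.sum_add_distrib, ← Finset.mul_sum, Finset.sum_add_distrib]
      _ ≤ _ := by nlinarith
  have hcs2 := cs_weight2 (fun i j => (1 - A i j) * h i j) (fun i j => |x i * x j|) hBh01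
  have hxx : ∑ i, ∑ j, (1 - A i j) * h i j * |x i * x j| ^ 2 ≤ V2 ^ 2 := by
    have : V2 ^ 2 = ∑ i, ∑ j, x i ^ 2 * x j ^ 2 := by
      rw [sq, hV2, Finset.sum_mul_sum]
    rw [this]
    refine Finset.sum_le_sum fun i _ => Finset.sum_le_sum fun j _ => ?_
    rw [sq_abs, mul_pow]
    have h1 := hBh1 i j
    have h2 : 0 ≤ x i ^ 2 * x j ^ 2 := by positivity
    nlinarith
  have hmiss : ∑ i, ∑ j, (1 - A i j) * h i j * |x i * x j| ≤ 41 / 10000 * N * V2 := by
    apply le_of_sq_le_sq _ (by positivity)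
    refine hcs2.trans ?_
    have h1 : 0 ≤ ∑ i, ∑ j, (1 - A i j) * h i j * |x i * x j| ^ 2 :=
      Finset.sum_nonneg fun i _ => Finset.sum_nonneg fun j _ => mul_nonneg (hBh0 i j) (sq_nonneg _)
    calc _ ≤ (168 / 10000000 * N ^ 2) * V2 ^ 2 := by
          apply mul_le_mul hBhsum hxx h1 (by positivity)
      _ ≤ (41 / 10000 * N * V2) ^ 2 := by nlinarith [sq_nonneg (N * V2)]
  have hAJ : ∑ i, ∑ j, A i j * (J i j * (x i * x j)) ≤
      (∑ i, x i) ^ 2 / 4 + 3 * (41 / 10000 * N * V2) := by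
    have e1 : ∑ i, ∑ j, A i j * (J i j * (x i * x j)) =
        ∑ i, ∑ j, J i j * (x i * x j) + ∑ i, ∑ j, (1 - A i j) * (- (J i j * (x i * x j))) := by
      simp_rw [← Finset.sum_add_distrib]
      refine Finset.sum_congr rfl fun i _ => Finset.sum_congr rfl fun j _ => by ring
    have e2 : ∑ i, ∑ j, (1 - A i j) * (- (J i j * (x i * x j))) ≤
        3 * ∑ i, ∑ j, (1 - A i j) * h i j * |x i * x j| := by
      simp_rw [Finset.mul_sum]
      refine Finset.sum_le_sum fun i _ => Finset.sum_le_sum fun j _ => ?_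
      have h1 : - (J i j * (x i * x j)) ≤ 3 * h i j * |x i * x j| := by
        calc - (J i j * (x i * x j)) ≤ |J i j * (x i * x j)| := neg_le_abs _
          _ = |J i j| * |x i * x j| := abs_mul _ _
          _ ≤ _ := mul_le_mul_of_nonneg_right (hJh i j) (abs_nonneg _)
      have h2 : 0 ≤ 1 - A i j := by linarith [hA1 i j]
      have := mul_le_mul_of_nonneg_left h1 h2
      linarith
    rw [e1]
    linarith
  have herrsum : ∑ i, ∑ j, err i j ≤ 6 * V2 * X1 + 2 * V2 ^ 2 := by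
    have h1 : ∀ i j, err i j ≤ 3 * x i ^ 2 * |x j| + 3 * |x i| * x j ^ 2 +
        2 * (x i ^ 2 * x j ^ 2) := by
      intro i j
      simp only [herr]
      rw [abs_mul]
      have e1 : x i ^ 2 = |x i| ^ 2 := (sq_abs _).symm
      have e2 : x j ^ 2 = |x j| ^ 2 := (sq_abs _).symm
      rw [e1, e2]
      have a1 := abs_nonneg (x i)
      have a2 := abs_nonneg (x j)
      have b1 := habs i
      have b2 := habs j
      set p := |x i|
      set q := |x j|
      have f1 : 2 * (p * q) * (p ^ 2 + q ^ 2) ≤ 3 / 2 * (p ^ 2 * q + p * q ^ 2) := by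
        have g1 : p * q * p ^ 2 ≤ 3 / 4 * (p ^ 2 * q) := by
          have : 0 ≤ p ^ 2 * q := by positivity
          nlinarith
        have g2 : p * q * q ^ 2 ≤ 3 / 4 * (p * q ^ 2) := by
          have : 0 ≤ p * q ^ 2 := by positivity
          nlinarith
        nlinarith
      nlinarith
    calc ∑ i, ∑ j, err i j ≤ ∑ i, ∑ j, (3 * x i ^ 2 * |x j| + 3 * |x i| * x j ^ 2 +
        2 * (x i ^ 2 * x j ^ 2)) :=
          Finset.sum_le_sum fun i _ => Finset.sum_le_sum fun j _ => h1 i j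
      _ = 3 * (V2 * X1) + 3 * (X1 * V2) + 2 * (V2 * V2) := by
        rw [hV2, hX1, Finset.sum_mul_sum, Finset.sum_mul_sum, Finset.sum_mul_sum]
        simp_rw [Finset.sum_add_distrib, Finset.mul_sum]
        congr 1
        congr 1 <;>
        exact Finset.sum_congr rfl fun i _ => Finset.sum_congr rfl fun j _ => by ring
      _ = _ := by ring
  have hAerr : ∑ i, ∑ j, A i j * err i j ≤ 6 * V2 * X1 + 2 * V2 ^ 2 := by
    refine le_trans (Finset.sum_le_sum fun i _ => Finset.sum_le_sum fun j _ => ?_) herrsum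
    have h1 : 0 ≤ err i j := by simp only [herr]; positivity
    have := mul_le_mul_of_nonneg_right (hA1 i j) h1
    linarith
  have hWle : |∑ i, x i| ≤ 9 / 4 * V2 := by
    have e1 : ∑ i, x i = ∑ i, (x i - x i * y i * (1 - 2 * x i ^ 2)) := by
      rw [Finset.sum_sub_distrib, hW, sub_zero]
    rw [e1, hV2, Finset.mul_sum]
    refine (Finset.abs_sum_le_sum_abs _ _).trans (Finset.sum_le_sum fun i _ => ?_)
    have h1 : x i - x i * y i * (1 - 2 * x i ^ 2) = x i * (1 - y i * (1 - 2 * x i ^ 2)) := by ring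
    have hxyi := hxy i
    have hyi := hy i
    have h4 : y i ≤ 1 := by nlinarith [sq_nonneg (x i)]
    have h5 : 1 - y i ≤ x i ^ 2 := by nlinarith
    have h6 : 0 ≤ 1 - y i * (1 - 2 * x i ^ 2) := by nlinarith [sq_nonneg (x i), hx i]
    have h7 : 1 - y i * (1 - 2 * x i ^ 2) ≤ 3 * x i ^ 2 := by nlinarith [sq_nonneg (x i)]
    rw [h1, abs_mul, abs_of_nonneg h6]
    have h8 := habs i
    have h9 := abs_nonneg (x i)
    calc |x i| * (1 - y i * (1 - 2 * x i ^ 2)) ≤ (3 / 4) * (3 * x i ^ 2) :=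
          mul_le_mul h8 h7 h6 (by norm_num)
      _ = _ := by ring
  have hW2 : (∑ i, x i) ^ 2 ≤ (9 / 4 * V2) ^ 2 := by
    rw [← sq_abs]
    exact pow_le_pow_left₀ (abs_nonneg _) hWle 2
  have hfinal : ∑ i, ∑ j, A i j * (I i j * (H i + H j) - (x i ^ 2 + x j ^ 2) +
      J i j * (x i * x j) + err i j) =
      ∑ i, ∑ j, A i j * (I i j * (H i + H j) - (x i ^ 2 + x j ^ 2)) +
      ∑ i, ∑ j, A i j * (J i j * (x i * x j)) + ∑ i, ∑ j, A i j * err i j := by
    simp_rw [← Finset.sum_add_distrib]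
    exact Finset.sum_congr rfl fun i _ => Finset.sum_congr rfl fun j _ => by ring
  have hV2z : V2 = 0 := by
    by_contra hne
    have hpos : 0 < V2 := lt_of_le_of_ne hV20 (Ne.symm hne)
    rw [hfinal] at hmain
    have t1 : 6 * V2 * X1 ≤ 6 * V2 * (2 / 1000 * N) :=
      mul_le_mul_of_nonneg_left hx1 (by positivity)
    have t2 : V2 ^ 2 ≤ V2 * (4 / 1000000 * N) := by
      rw [sq]; exact mul_le_mul_of_nonneg_left hx2 hV20
    have t3 : 0 < N * V2 := by positivity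
    nlinarith
  intro i
  have h1 : x i ^ 2 ≤ 0 := by
    rw [← hV2z, hV2]
    exact Finset.single_le_sum (f := fun j => x j ^ 2) (fun j _ => sq_nonneg _) (Finset.mem_univ i)
  exact pow_eq_zero_iff (two_ne_zero) |>.mp (le_antisymm h1 (sq_nonneg _))

end Pool.Agent.Lib.MP_2fe47b_co
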