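import Mathlib

/-!
# Kuramoto networks: pointwise trigonometric estimates
-/

open Finset

namespace Pool.Agent.Lib.MP_2fe47b_co

/-- Pointwise bound, same cluster. -/
lemma P_same {x y X Y : ℝ} (h : x ^ 2 + y ^ 2 = 1) (H : X ^ 2 + Y ^ 2 = 1) (hy : 0 < y)
    (hY : 0 < Y) :
    (y * Y + x * X) - (y * Y + x * X) ^ 2 + (X / Y - x / y) * (X * y - Y * x) ≤
      (1 / y - y ^ 2) + (1 / Y - Y ^ 2) - 3 * (x * X) +
      (2 * |x * X| * (x ^ 2 + X ^ 2) + 2 * x ^ 2 * X ^ 2) := by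
  have hy1 : y ≤ 1 := by nlinarith
  have hY1 : Y ≤ 1 := by nlinarith
  have h1 : 1 - y ≤ x ^ 2 := by nlinarith
  have H1 : 1 - Y ≤ X ^ 2 := by nlinarith
  have key : (y * Y + x * X) - (y * Y + x * X) ^ 2 + (X / Y - x / y) * (X * y - Y * x) -
      ((1 / y - y ^ 2) + (1 / Y - Y ^ 2)) =
      (1 - y) * (1 - Y) - 2 * x ^ 2 * X ^ 2 - X ^ 2 * (1 - y) / Y - x ^ 2 * (1 - Y) / y -
        x * X * (1 + 2 * y * Y) := by
    have e1 : x ^ 2 = 1 - y ^ 2 := by linarith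
    have e2 : X ^ 2 = 1 - Y ^ 2 := by linarith
    field_simp
    ring_nf
    have e3 : x ^ 3 = x * (1 - y ^ 2) := by rw [← e1]; ring
    have e4 : X ^ 3 = X * (1 - Y ^ 2) := by rw [← e2]; ring
    simp only [e1, e2, e3, e4]
    ring
  have a1 : 0 ≤ X ^ 2 * (1 - y) / Y := by
    apply div_nonneg (mul_nonneg (sq_nonneg _) (by linarith)) hY.le
  have a2 : 0 ≤ x ^ 2 * (1 - Y) / y := by
    apply div_nonneg (mul_nonneg (sq_nonneg _) (by linarith)) hy.le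
  have a3 : (1 - y) * (1 - Y) ≤ x ^ 2 * X ^ 2 := by
    apply mul_le_mul h1 H1 (by linarith) (by positivity)
  have a4 : 0 ≤ 1 - y * Y := by nlinarith
  have a5 : 1 - y * Y ≤ x ^ 2 + X ^ 2 := by nlinarith
  have a6 : x * X * (1 - y * Y) ≤ |x * X| * (x ^ 2 + X ^ 2) := by
    calc x * X * (1 - y * Y) ≤ |x * X| * (1 - y * Y) :=
          mul_le_mul_of_nonneg_right (le_abs_self _) a4
      _ ≤ _ := mul_le_mul_of_nonneg_left a5 (abs_nonneg _)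
  have a7 : 0 ≤ x ^ 2 * X ^ 2 := by positivity
  nlinarith

lemma P_adj {x y X Y : ℝ} (h : x ^ 2 + y ^ 2 = 1) (H : X ^ 2 + Y ^ 2 = 1) (hy : 0 < y)
    (hY : 0 < Y) (hx : x ^ 2 ≤ 1 / 2) (hX : X ^ 2 ≤ 1 / 2) (l : ℝ) (hl : l = 1 ∨ l = -1) :
    (-l * (X * y - Y * x)) - (-l * (X * y - Y * x)) ^ 2 +
      (X / Y - x / y) * (l * (y * Y + x * X)) ≤
      - (x ^ 2 + X ^ 2) + 2 * (x * X) +
      (2 * |x * X| * (x ^ 2 + X ^ 2) + 2 * x ^ 2 * X ^ 2 + 3 / 2 * |x * X| * (|x| + |X|)) := by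
  have hy1 : y ≤ 1 := by nlinarith
  have hY1 : Y ≤ 1 := by nlinarith
  have h1 : 1 - y ≤ x ^ 2 := by nlinarith
  have H1 : 1 - Y ≤ X ^ 2 := by nlinarith
  have a4 : 0 ≤ 1 - y * Y := by nlinarith
  have a5 : 1 - y * Y ≤ x ^ 2 + X ^ 2 := by nlinarith
  have yb : 2 / 3 ≤ y := by nlinarith
  have Yb : 2 / 3 ≤ Y := by nlinarith
  have key : (-l * (X * y - Y * x)) - (-l * (X * y - Y * x)) ^ 2 +
      (X / Y - x / y) * (l * (y * Y + x * X)) =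
      - (x ^ 2 + X ^ 2) + 2 * x ^ 2 * X ^ 2 + 2 * (x * X) * (y * Y) +
        l * ((X / Y - x / y) * (x * X)) := by
    have e1 : y ^ 2 = 1 - x ^ 2 := by linarith
    have e2 : Y ^ 2 = 1 - X ^ 2 := by linarith
    have hl2 : l ^ 2 = 1 := by rcases hl with rfl | rfl <;> norm_num
    have e3 : (-l * (X * y - Y * x)) ^ 2 = (X * y - Y * x) ^ 2 := by
      rw [mul_pow]; nlinarith [hl2]
    rw [e3]
    have e4 : (X * y - Y * x) ^ 2 = X ^ 2 * (1 - x ^ 2) + x ^ 2 * (1 - X ^ 2) -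
        2 * (x * X) * (y * Y) := by
      rw [← e1, ← e2]; ring
    rw [e4]
    have e5 : (X / Y - x / y) * (y * Y) = X * y - Y * x := by
      field_simp
    have e6 : (X / Y - x / y) * (l * (y * Y + x * X)) =
        l * ((X / Y - x / y) * (y * Y)) + l * ((X / Y - x / y) * (x * X)) := by ring
    rw [e6, e5]
    ring
  have b1 : |X / Y - x / y| ≤ 3 / 2 * (|x| + |X|) := by
    have c1 : |X / Y| ≤ 3 / 2 * |X| := by
      rw [abs_div, abs_of_pos hY, div_le_iff₀ hY]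
      nlinarith [abs_nonneg X]
    have c2 : |x / y| ≤ 3 / 2 * |x| := by
      rw [abs_div, abs_of_pos hy, div_le_iff₀ hy]
      nlinarith [abs_nonneg x]
    calc |X / Y - x / y| ≤ |X / Y| + |x / y| := abs_sub _ _
      _ ≤ _ := by linarith
  have b2 : l * ((X / Y - x / y) * (x * X)) ≤ 3 / 2 * |x * X| * (|x| + |X|) := by
    calc l * ((X / Y - x / y) * (x * X)) ≤ |l * ((X / Y - x / y) * (x * X))| := le_abs_self _
      _ = |X / Y - x / y| * |x * X| := by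
        rw [abs_mul, abs_mul]
        have : |l| = 1 := by rcases hl with rfl | rfl <;> simp
        rw [this, one_mul]
      _ ≤ (3 / 2 * (|x| + |X|)) * |x * X| := mul_le_mul_of_nonneg_right b1 (abs_nonneg _)
      _ = _ := by ring
  have b3 : (x * X) * (y * Y) ≤ x * X + |x * X| * (x ^ 2 + X ^ 2) := by
    have : -(x * X) * (1 - y * Y) ≤ |x * X| * (x ^ 2 + X ^ 2) := by
      calc -(x * X) * (1 - y * Y) ≤ |x * X| * (1 - y * Y) :=
            mul_le_mul_of_nonneg_right (neg_le_abs _) a4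
        _ ≤ _ := mul_le_mul_of_nonneg_left a5 (abs_nonneg _)
    nlinarith
  rw [key]
  nlinarith

lemma P_opp {x y X Y : ℝ} (h : x ^ 2 + y ^ 2 = 1) (H : X ^ 2 + Y ^ 2 = 1) (hy : 0 < y)
    (hY : 0 < Y) (hx : x ^ 2 ≤ 1 / 2) (hX : X ^ 2 ≤ 1 / 2) :
    (-(y * Y + x * X)) - (-(y * Y + x * X)) ^ 2 +
      (X / Y - x / y) * (-(X * y - Y * x)) ≤ - (x ^ 2 + X ^ 2) := by
  have hy1 : y ≤ 1 := by nlinarith
  have hY1 : Y ≤ 1 := by nlinarith
  have hyY : 0 < y * Y := mul_pos hy hY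
  have hc : 0 ≤ y * Y + x * X := by
    have : (x * X) ^ 2 ≤ (y * Y) ^ 2 := by
      rw [mul_pow, mul_pow]
      have : y ^ 2 = 1 - x ^ 2 := by linarith
      have : Y ^ 2 = 1 - X ^ 2 := by linarith
      nlinarith [sq_nonneg x, sq_nonneg X]
    have := abs_le_of_sq_le_sq' this hyY.le
    linarith [this.1]
  have e : (X / Y - x / y) * (-(X * y - Y * x)) = - ((X * y - Y * x) ^ 2 / (y * Y)) := by
    field_simp
  have e2 : (X * y - Y * x) ^ 2 ≤ (X * y - Y * x) ^ 2 / (y * Y) := by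
    rw [le_div_iff₀ hyY]
    have : y * Y ≤ 1 := by nlinarith
    nlinarith [sq_nonneg (X * y - Y * x)]
  have e3 : (y * Y + x * X) ^ 2 + (X * y - Y * x) ^ 2 = 1 := by
    have : (y * Y + x * X) ^ 2 + (X * y - Y * x) ^ 2 = (x ^ 2 + y ^ 2) * (X ^ 2 + Y ^ 2) := by ring
    rw [this, h, H]; norm_num
  rw [e]
  nlinarith

/-- the predicate that `(c, s)` is one of the four axis unit vectors -/
def Ax (c s : ℝ) : Prop := (c = 1 ∧ s = 0) ∨ (c = 0 ∧ s = 1) ∨ (c = -1 ∧ s = 0) ∨ (c = 0 ∧ s = -1)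

/-- relative position of two axis vectors -/
lemma Ax.rel {c s C S : ℝ} (h : Ax c s) (H : Ax C S) :
    Ax (c * C + s * S) (S * c - C * s) := by
  rcases h with ⟨rfl, rfl⟩ | ⟨rfl, rfl⟩ | ⟨rfl, rfl⟩ | ⟨rfl, rfl⟩ <;>
  rcases H with ⟨rfl, rfl⟩ | ⟨rfl, rfl⟩ | ⟨rfl, rfl⟩ | ⟨rfl, rfl⟩ <;> simp [Ax]

/-- The pointwise bound in all cases. -/
lemma P_all {x y X Y : ℝ} (h : x ^ 2 + y ^ 2 = 1) (H : X ^ 2 + Y ^ 2 = 1) (hy : 0 < y)
    (hY : 0 < Y) (hx : x ^ 2 ≤ 1 / 2) (hX : X ^ 2 ≤ 1 / 2) (k l : ℝ) (hkl : Ax k l) :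
    (k * (y * Y + x * X) - l * (X * y - Y * x)) - (k * (y * Y + x * X) - l * (X * y - Y * x)) ^ 2 +
      (X / Y - x / y) * (l * (y * Y + x * X) + k * (X * y - Y * x)) ≤
      ((k ^ 2 + k) / 2) * ((1 / y - y ^ 2) + (1 / Y - Y ^ 2) + (x ^ 2 + X ^ 2)) - (x ^ 2 + X ^ 2) +
      (-3 * ((k ^ 2 + k) / 2) + 2 * (1 - k ^ 2)) * (x * X) +
      (2 * |x * X| * (x ^ 2 + X ^ 2) + 2 * x ^ 2 * X ^ 2 + 3 / 2 * |x * X| * (|x| + |X|)) := by
  have e0 : 0 ≤ 3 / 2 * (|x| * |X|) * (|x| + |X|) := by positivity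
  have e1 : 0 ≤ 2 * (|x| * |X|) * (x ^ 2 + X ^ 2) + 2 * x ^ 2 * X ^ 2 := by positivity
  rcases hkl with ⟨rfl, rfl⟩ | ⟨rfl, rfl⟩ | ⟨rfl, rfl⟩ | ⟨rfl, rfl⟩
  · have := P_same h H hy hY
    norm_num at this ⊢
    linarith
  · have := P_adj h H hy hY hx hX 1 (Or.inl rfl)
    norm_num at this ⊢
    linarith
  · have := P_opp h H hy hY hx hX
    norm_num at this ⊢
    linarith
  · have := P_adj h H hy hY hx hX (-1) (Or.inr rfl)
    norm_num at this ⊢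
    linarith

lemma ax_int (k : ℤ) : Ax (Real.cos (k * (Real.pi / 2))) (Real.sin (k * (Real.pi / 2))) := by
  obtain ⟨q, r, hr0, hr4, rfl⟩ : ∃ q r : ℤ, 0 ≤ r ∧ r < 4 ∧ k = r + 4 * q :=
    ⟨k / 4, k % 4, Int.emod_nonneg _ (by norm_num), Int.emod_lt_of_pos _ (by norm_num),
      by rw [Int.emod_add_mul_ediv]⟩
  have e : (((r + 4 * q : ℤ) : ℝ)) * (Real.pi / 2) = (r : ℝ) * (Real.pi / 2) + q * (2 * Real.pi) := by
    push_cast; ring
  rw [e, Real.cos_add_int_mul_two_pi, Real.sin_add_int_mul_two_pi]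
  interval_cases r
  · left; simp
  · right; left; simp
  · right; right; left
    have : ((2 : ℤ) : ℝ) * (Real.pi / 2) = Real.pi := by push_cast; ring
    rw [this]; simp
  · right; right; right
    have : ((3 : ℤ) : ℝ) * (Real.pi / 2) = Real.pi / 2 + Real.pi := by push_cast; ring
    rw [this, Real.cos_add_pi, Real.sin_add_pi]; simp

lemma fin_case (σ ci si cj sj : ℝ) (hσ : σ = 1 ∨ σ = -1) (hi : Ax ci si) (hj : Ax cj sj)
    (hopp : ci * cj + si * sj ≠ -1) (vi vj b w : ℝ)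
    (hvi : vi = (ci ^ 2 + ci) / 2 - (si ^ 2 + σ * si) / 2)
    (hvj : vj = (cj ^ 2 + cj) / 2 - (sj ^ 2 + σ * sj) / 2) (hb : b = vi - vj)
    (hw : w = (b ^ 3 - b) / 6) :
    ((ci * cj + si * sj = 1 ∧ b = 0 ∧ w = 0 ∧ si * cj - ci * sj = 0) ∨
     (ci * cj + si * sj = 0 ∧ ((b = 0 ∧ w = 0) ∨ (b = 1 ∧ w = 0) ∨ (b = -1 ∧ w = 0) ∨
      (b = 2 ∧ w = 1 ∧ si * cj - ci * sj = - σ) ∨ (b = -2 ∧ w = -1 ∧ si * cj - ci * sj = σ)))) := by
  subst hw hb hvi hvj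
  rcases hσ with rfl | rfl <;>
  rcases hi with ⟨rfl, rfl⟩ | ⟨rfl, rfl⟩ | ⟨rfl, rfl⟩ | ⟨rfl, rfl⟩ <;>
  rcases hj with ⟨rfl, rfl⟩ | ⟨rfl, rfl⟩ | ⟨rfl, rfl⟩ | ⟨rfl, rfl⟩ <;>
  first
  | (exfalso; norm_num at hopp; done)
  | (norm_num; done)

lemma pt_case (t σ K S b w : ℝ)
    (h : (K = 1 ∧ b = 0 ∧ w = 0 ∧ S = 0) ∨
     (K = 0 ∧ ((b = 0 ∧ w = 0) ∨ (b = 1 ∧ w = 0) ∨ (b = -1 ∧ w = 0) ∨
      (b = 2 ∧ w = 1 ∧ S = - σ) ∨ (b = -2 ∧ w = -1 ∧ S = σ)))) :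
    (1 - (K * Real.cos (t * b) - S * Real.sin (t * b))) -
      (1 - (K * Real.cos (0 * b) - S * Real.sin (0 * b))) =
      Real.sin t * (S * b) + (2 * Real.sin t - Real.sin (2 * t)) * (σ * w ^ 2) := by
  rcases h with ⟨rfl, rfl, rfl, rfl⟩ | ⟨rfl, h3⟩
  · simp
  · rcases h3 with ⟨rfl, rfl⟩ | ⟨rfl, rfl⟩ | ⟨rfl, rfl⟩ | ⟨rfl, rfl, rfl⟩ | ⟨rfl, rfl, rfl⟩
    · simp
    · simp; ring
    · have : t * (-1) = - t := by ring
      rw [this, Real.sin_neg]; simp; ring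
    · rw [mul_comm t 2]; simp; ring
    · have : t * (-2) = - (2 * t) := by ring
      rw [this, Real.sin_neg]; simp; ring

/-- the oscillation argument -/
lemma osc (σ Z : ℝ) (hσ : σ = 1 ∨ σ = -1) (hZ : 0 < Z)
    (hev : ∀ᶠ t in nhds (0 : ℝ), 0 ≤ Real.sin t * (1 - Real.cos t) * (σ * Z)) : False := by
  have hev' : ∀ᶠ t in nhds (0 : ℝ), 0 ≤ Real.sin (-t) * (1 - Real.cos (-t)) * (σ * Z) := by
    have : Filter.Tendsto (fun t : ℝ => -t) (nhds 0) (nhds 0) := by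
      simpa using (continuous_neg (G := ℝ)).tendsto 0
    exact this.eventually hev
  have hsmall : ∀ᶠ t in nhdsWithin (0 : ℝ) (Set.Ioi 0), t < 1 :=
    nhdsWithin_le_nhds (gt_mem_nhds zero_lt_one)
  have hpos : ∀ᶠ t in nhdsWithin (0 : ℝ) (Set.Ioi 0), 0 < t := self_mem_nhdsWithin
  have hev1 : ∀ᶠ t in nhdsWithin (0 : ℝ) (Set.Ioi 0),
      0 ≤ Real.sin t * (1 - Real.cos t) * (σ * Z) := nhdsWithin_le_nhds hev
  have hev2 : ∀ᶠ t in nhdsWithin (0 : ℝ) (Set.Ioi 0),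
      0 ≤ Real.sin (-t) * (1 - Real.cos (-t)) * (σ * Z) := nhdsWithin_le_nhds hev'
  obtain ⟨t, ⟨ht1, ht2⟩, ht3, ht4⟩ := ((hev1.and hev2).and (hpos.and hsmall)).exists
  rw [Real.sin_neg, Real.cos_neg] at ht2
  have hst : 0 < Real.sin t := Real.sin_pos_of_pos_of_lt_pi ht3 (by linarith [Real.pi_gt_three])
  have hct : Real.cos t < 1 := by
    have h1 := Real.sin_sq_add_cos_sq t
    by_contra hge
    have hge' : 1 ≤ Real.cos t := not_lt.mp hge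
    have hle' : Real.cos t = 1 := le_antisymm (Real.cos_le_one t) hge'
    rw [hle'] at h1
    have : 0 < Real.sin t ^ 2 := by positivity
    linarith
  have h5 : 0 < Real.sin t * (1 - Real.cos t) := mul_pos hst (sub_pos.mpr hct)
  have h7 : -Real.sin t * (1 - Real.cos t) * (σ * Z) =
      - (Real.sin t * (1 - Real.cos t) * (σ * Z)) := by ring
  rw [h7] at ht2
  have h6 : Real.sin t * (1 - Real.cos t) * (σ * Z) = 0 :=
    le_antisymm (neg_nonneg.mp ht2) ht1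
  rcases mul_eq_zero.mp h6 with h8 | h8
  · exact h5.ne' h8
  · rcases mul_eq_zero.mp h8 with h9 | h9
    · rcases hσ with h10 | h10 <;> rw [h10] at h9 <;> norm_num at h9
    · exact hZ.ne' h9

end Pool.Agent.Lib.MP_2fe47b_co
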